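import Mathlib
import Pool.Agent.ECG.Defs

/-!
# Shuffles and stuffles of functionals on words

`shE Φ u v` is the sum of `Φ` over all shuffles of `u` and `v`; `st G u v` is the sum of `G` over the
stuffle product of the compositions `u` and `v`.
-/

set_option autoImplicit false

namespace Pool.Agent.ECR

open Pool.Agent.H4DM Pool.Agent.ECG

section sh

variable {α : Type} {R : Type*} [CommRing R]

/-- Induction principle for two words. -/
theorem two_induction {β : Type} {p : List β → List β → Prop} (h1 : ∀ v, p [] v) (h2 : ∀ u, p u [])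
    (h3 : ∀ a b u v, p u (b :: v) → p (a :: u) v → p u v → p (a :: u) (b :: v)) :
    ∀ u v, p u v := by
  intro u
  induction u with
  | nil => exact h1
  | cons a u ihu =>
    intro v
    induction v with
    | nil => exact h2 _
    | cons b v ihv => exact h3 a b u v (ihu _) ihv (ihu _)

theorem sh_congr_len (u v : List α) : ∀ Φ Ψ : List α → R,
    (∀ w, w.length = u.length + v.length → Φ w = Ψ w) → shE Φ u v = shE Ψ u v := by
  induction u, v using two_induction with
  | h1 v => intro Φ Ψ h; rw [shE_nil_left, shE_nil_left]; exact h v (by simp)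
  | h2 u => intro Φ Ψ h; rw [shE_nil_right, shE_nil_right]; exact h u (by simp)
  | h3 a b u v i1 i2 _ =>
    intro Φ Ψ h
    rw [shE_cons_cons, shE_cons_cons]
    congr 1
    · apply i1
      intro w hw
      apply h
      simp only [List.length_cons] at hw ⊢
      omega
    · apply i2
      intro w hw
      apply h
      simp only [List.length_cons] at hw ⊢
      omega

/-- Words which are empty or end with the letter `1`. -/
def E1 (w : List (Fin 2)) : Prop := w = [] ∨ ∃ v, w = v ++ [1]

theorem E1_nil : E1 [] := Or.inl rfl

theorem E1_cons_one {w : List (Fin 2)} (h : E1 w) : E1 (1 :: w) := by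
  rcases h with rfl | ⟨v, rfl⟩
  · exact Or.inr ⟨[], rfl⟩
  · exact Or.inr ⟨1 :: v, rfl⟩

theorem E1_cons_ne {a : Fin 2} {w : List (Fin 2)} (h : E1 w) (hw : w ≠ []) : E1 (a :: w) := by
  rcases h with rfl | ⟨v, rfl⟩
  · exact absurd rfl hw
  · exact Or.inr ⟨a :: v, rfl⟩

theorem E1_tail {a : Fin 2} {w : List (Fin 2)} (h : E1 (a :: w)) : E1 w := by
  rcases h with h | ⟨v, h⟩
  · exact absurd h (by simp)
  · cases v with
    | nil =>
      simp only [List.nil_append, List.cons.injEq] at h
      exact Or.inl h.2
    | cons c v =>
      simp only [List.cons_append, List.cons.injEq] at h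
      exact Or.inr ⟨v, h.2⟩

theorem E1_zero_ne {w : List (Fin 2)} (h : E1 (0 :: w)) : w ≠ [] := by
  rintro rfl
  rcases h with h | ⟨v, h⟩
  · exact absurd h (by simp)
  · cases v with
    | nil => simp at h
    | cons c v => simp at h

theorem sh_congr_E1 (u v : List (Fin 2)) : ∀ Φ Ψ : List (Fin 2) → R, E1 u → E1 v →
    (∀ w, E1 w → w.length = u.length + v.length → Φ w = Ψ w) → shE Φ u v = shE Ψ u v := by
  induction u, v using two_induction with
  | h1 v => intro Φ Ψ _ hv h; rw [shE_nil_left, shE_nil_left]; exact h v hv (by simp)
  | h2 u => intro Φ Ψ hu _ h; rw [shE_nil_right, shE_nil_right]; exact h u hu (by simp)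
  | h3 a b u v i1 i2 _ =>
    intro Φ Ψ hu hv h
    rw [shE_cons_cons, shE_cons_cons]
    congr 1
    · apply i1 _ _ (E1_tail hu) hv
      intro w hw hl
      apply h
      · apply E1_cons_ne hw
        rintro rfl
        simp only [List.length_nil, List.length_cons] at hl
        omega
      · simp only [List.length_cons] at hl ⊢
        omega
    · apply i2 _ _ hu (E1_tail hv)
      intro w hw hl
      apply h
      · apply E1_cons_ne hw
        rintro rfl
        simp only [List.length_nil, List.length_cons] at hl
        omega
      · simp only [List.length_cons] at hl ⊢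
        omega

theorem sh_add (u v : List α) : ∀ Φ Ψ : List α → R,
    shE (fun w => Φ w + Ψ w) u v = shE Φ u v + shE Ψ u v := by
  induction u, v using two_induction with
  | h1 v => intro Φ Ψ; simp only [shE_nil_left]
  | h2 u => intro Φ Ψ; simp only [shE_nil_right]
  | h3 a b u v i1 i2 _ => intro Φ Ψ; simp only [shE_cons_cons, i1, i2]; ring

theorem sh_smul (u v : List α) : ∀ (c : R) (Φ : List α → R),
    shE (fun w => c * Φ w) u v = c * shE Φ u v := by
  induction u, v using two_induction with
  | h1 v => intro c Φ; simp only [shE_nil_left]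
  | h2 u => intro c Φ; simp only [shE_nil_right]
  | h3 a b u v i1 i2 _ => intro c Φ; simp only [shE_cons_cons, i1, i2]; ring

/-- `sh` commutes with additive maps. -/
theorem sh_map {S : Type*} [CommRing S] (f : R →+ S) (u v : List α) : ∀ (Φ : List α → R),
    shE (fun w => f (Φ w)) u v = f (shE Φ u v) := by
  induction u, v using two_induction with
  | h1 v => intro Φ; simp only [shE_nil_left]
  | h2 u => intro Φ; simp only [shE_nil_right]
  | h3 a b u v i1 i2 _ => intro Φ; simp only [shE_cons_cons, i1, i2, map_add]

end sh

section st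

variable {R : Type*} [CommRing R]

theorem st_add (u v : List ℕ+) : ∀ Φ Ψ : List ℕ+ → R,
    stE (fun w => Φ w + Ψ w) u v = stE Φ u v + stE Ψ u v := by
  induction u, v using two_induction with
  | h1 v => intro Φ Ψ; simp only [stE_nil_left]
  | h2 u => intro Φ Ψ; simp only [stE_nil_right]
  | h3 a b u v i1 i2 i3 => intro Φ Ψ; simp only [stE_cons_cons, i1, i2, i3]; ring

theorem st_smul (u v : List ℕ+) : ∀ (c : R) (Φ : List ℕ+ → R),
    stE (fun w => c * Φ w) u v = c * stE Φ u v := by
  induction u, v using two_induction with
  | h1 v => intro c Φ; simp only [stE_nil_left]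
  | h2 u => intro c Φ; simp only [stE_nil_right]
  | h3 a b u v i1 i2 i3 => intro c Φ; simp only [stE_cons_cons, i1, i2, i3]; ring

/-- `st` commutes with additive maps. -/
theorem st_map {S : Type*} [CommRing S] (f : R →+ S) (u v : List ℕ+) : ∀ (Φ : List ℕ+ → R),
    stE (fun w => f (Φ w)) u v = f (stE Φ u v) := by
  induction u, v using two_induction with
  | h1 v => intro Φ; simp only [stE_nil_left]
  | h2 u => intro Φ; simp only [stE_nil_right]
  | h3 a b u v i1 i2 i3 => intro Φ; simp only [stE_cons_cons, i1, i2, i3, map_add]

/-- `st` of a finite sum of functionals with coefficients. -/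
theorem st_sum {ι : Type*} (s : Finset ι) (c : ι → R) (Φ : ι → List ℕ+ → R) (u v : List ℕ+) :
    stE (fun w => ∑ i ∈ s, c i * Φ i w) u v = ∑ i ∈ s, c i * stE (Φ i) u v := by
  classical
  induction s using Finset.induction_on with
  | empty =>
    simp only [Finset.sum_empty]
    have := st_smul u v (0 : R) (fun _ => 0)
    simpa using this
  | insert a s ha ih =>
    simp only [Finset.sum_insert ha]
    rw [st_add, st_smul, ih]

end st

end Pool.Agent.ECR
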