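import Mathlib
import Pool.Agent.ECR.Words

/-!
# Truncated multiple harmonic sums
-/

set_option autoImplicit false

namespace Pool.Agent.ECR

open Finset Pool.Agent.ECG

noncomputable section

/-- The truncated sum `∑_{N ≥ n₁ > n₂ > ... ≥ 1} ∏ n_i^{-k_i}`. -/
def Z : List ℕ+ → ℕ → ℝ
  | [], _ => 1
  | k :: w, N => ∑ n ∈ range N, (1 / ((n : ℝ) + 1) ^ (k : ℕ)) * Z w n

theorem Z_nil (N : ℕ) : Z [] N = 1 := rfl

theorem Z_cons (k : ℕ+) (w : List ℕ+) (N : ℕ) :
    Z (k :: w) N = ∑ n ∈ range N, (1 / ((n : ℝ) + 1) ^ (k : ℕ)) * Z w n := rfl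

theorem Z_cons_zero (k : ℕ+) (w : List ℕ+) : Z (k :: w) 0 = 0 := by simp [Z_cons]

theorem Z_cons_succ (k : ℕ+) (w : List ℕ+) (N : ℕ) :
    Z (k :: w) (N + 1) = Z (k :: w) N + (1 / ((N : ℝ) + 1) ^ (k : ℕ)) * Z w N := by
  rw [Z_cons, Z_cons, sum_range_succ]

/-- The stuffle product formula for truncated sums. -/
theorem Z_stuffle (u v : List ℕ+) : ∀ N, stE (fun w => Z w N) u v = Z u N * Z v N := by
  induction u, v using two_induction with
  | h1 v => intro N; rw [stE_nil_left, Z_nil, one_mul]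
  | h2 u => intro N; rw [stE_nil_right, Z_nil, mul_one]
  | h3 a b u v i1 i2 i3 =>
    intro N
    rw [stE_cons_cons]
    simp only [Z_cons _ _ N]
    rw [st_sum, st_sum, st_sum]
    simp only [i1, i2, i3]
    rw [← Z_cons, ← Z_cons]
    induction N with
    | zero => simp [Z_cons_zero]
    | succ N ih =>
      rw [sum_range_succ, sum_range_succ, sum_range_succ]
      have e : ((a + b : ℕ+) : ℕ) = (a : ℕ) + b := PNat.add_coe a b
      rw [Z_cons_succ a u, Z_cons_succ b v, e, pow_add]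
      have e2 : (1 : ℝ) / (((N : ℝ) + 1) ^ (a : ℕ) * ((N : ℝ) + 1) ^ (b : ℕ)) =
        (1 / ((N : ℝ) + 1) ^ (a : ℕ)) * (1 / ((N : ℝ) + 1) ^ (b : ℕ)) := by
        rw [one_div_mul_one_div]
      rw [e2]
      simp only [e] at ih ⊢
      linear_combination ih

/-- The harmonic numbers. -/
def h (N : ℕ) : ℝ := ∑ n ∈ range N, 1 / ((n : ℝ) + 1)

theorem Z_one (N : ℕ) : Z [1] N = h N := by
  simp [Z_cons, Z_nil, h]

theorem h_zero : h 0 = 0 := by simp [h]

theorem h_succ (N : ℕ) : h (N + 1) = h N + 1 / ((N : ℝ) + 1) := by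
  rw [h, sum_range_succ]; rfl

theorem h_nonneg (N : ℕ) : 0 ≤ h N := by
  apply sum_nonneg
  intro n _
  positivity

/-- `1 +` the harmonic number. -/
def g (N : ℕ) : ℝ := 1 + h N

theorem g_ge (N : ℕ) : 1 ≤ g N := by
  have := h_nonneg N
  rw [g]; linarith

theorem g_pos (N : ℕ) : 0 < g N := lt_of_lt_of_le one_pos (g_ge N)

theorem g_succ (N : ℕ) : g (N + 1) = g N + 1 / ((N : ℝ) + 1) := by
  rw [g, h_succ, g]; ring

theorem inv_succ_le (N : ℕ) : 1 / ((N : ℝ) + 1) ≤ 1 := by
  rw [div_le_one (by positivity)]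
  have : (0 : ℝ) ≤ N := Nat.cast_nonneg N
  linarith

theorem g_succ_le (N : ℕ) : g (N + 1) ≤ 2 * g N := by
  rw [g_succ]
  have h1 := inv_succ_le N
  have h2 := g_ge N
  linarith

theorem g_mono : Monotone g := by
  apply monotone_nat_of_le_succ
  intro n
  rw [g_succ]
  have : 0 ≤ 1 / ((n : ℝ) + 1) := by positivity
  linarith

theorem h_eq_harmonic (N : ℕ) : h N = (harmonic N : ℚ) := by
  rw [h, harmonic]
  push_cast
  apply sum_congr rfl
  intro n _
  rw [one_div]

theorem g_le_exp (N : ℕ) : Real.exp (g N) ≤ Real.exp 2 * ((N : ℝ) + 1) := by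
  rcases Nat.eq_zero_or_pos N with rfl | hN
  · rw [g, h_zero]
    have : Real.exp (1 + 0) ≤ Real.exp 2 := Real.exp_le_exp.mpr (by norm_num)
    simp only [Nat.cast_zero, zero_add, mul_one]
    exact this
  · have h1 := harmonic_le_one_add_log N
    rw [← h_eq_harmonic] at h1
    have h2 : g N ≤ 2 + Real.log N := by rw [g]; linarith
    have h3 : Real.exp (2 + Real.log N) = Real.exp 2 * N := by
      rw [Real.exp_add, Real.exp_log (by exact_mod_cast hN)]
    calc Real.exp (g N) ≤ Real.exp (2 + Real.log N) := Real.exp_le_exp.mpr h2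
      _ = Real.exp 2 * N := h3
      _ ≤ Real.exp 2 * ((N : ℝ) + 1) := by
        apply mul_le_mul_of_nonneg_left _ (Real.exp_pos 2).le
        linarith

theorem g_pow_le (k N : ℕ) : g N ^ k ≤ (k.factorial * Real.exp 2) * ((N : ℝ) + 1) := by
  have h1 := Real.pow_div_factorial_le_exp (g N) (g_pos N).le k
  have h2 : (0 : ℝ) < k.factorial := by positivity
  rw [div_le_iff₀ h2] at h1
  calc g N ^ k ≤ Real.exp (g N) * k.factorial := h1
    _ ≤ (Real.exp 2 * ((N : ℝ) + 1)) * k.factorial :=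
      mul_le_mul_of_nonneg_right (g_le_exp N) h2.le
    _ = (k.factorial * Real.exp 2) * ((N : ℝ) + 1) := by ring

theorem h_tendsto : Filter.Tendsto h Filter.atTop Filter.atTop := by
  have h1 : ∀ N : ℕ, Real.log ((N : ℝ) + 1) ≤ h N := by
    intro N
    have := log_add_one_le_harmonic N
    rw [← h_eq_harmonic] at this
    simpa using this
  apply Filter.tendsto_atTop_mono h1
  apply Real.tendsto_log_atTop.comp
  exact Filter.tendsto_atTop_add_const_right _ _ tendsto_natCast_atTop_atTop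

end

end Pool.Agent.ECR
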