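import Mathlib
import Pool.Agent.ECR.Trunc

/-!
# Asymptotic expansion of truncated sums as polynomials in the harmonic numbers
-/

set_option autoImplicit false

namespace Pool.Agent.ECR

open Finset Polynomial

noncomputable section

/-- Sequences that are smaller than every negative power of the harmonic numbers. -/
def Sm (e : ℕ → ℝ) : Prop := ∀ k : ℕ, ∃ C, ∀ N, |e N| * g N ^ k ≤ C

theorem Sm.zero : Sm (fun _ => 0) := fun k => ⟨0, fun N => by simp⟩

theorem Sm.add {a b : ℕ → ℝ} (ha : Sm a) (hb : Sm b) : Sm (fun N => a N + b N) := by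
  intro k
  obtain ⟨C, hC⟩ := ha k
  obtain ⟨D, hD⟩ := hb k
  refine ⟨C + D, fun N => ?_⟩
  calc |a N + b N| * g N ^ k ≤ (|a N| + |b N|) * g N ^ k :=
        mul_le_mul_of_nonneg_right (abs_add_le _ _) (pow_pos (g_pos N) k).le
    _ = |a N| * g N ^ k + |b N| * g N ^ k := by ring
    _ ≤ C + D := add_le_add (hC N) (hD N)

theorem Sm.bdd_mul {a b : ℕ → ℝ} (ha : Sm a) (k : ℕ) (D : ℝ) (hb : ∀ N, |b N| ≤ D * g N ^ k) :
    Sm (fun N => b N * a N) := by
  intro l
  obtain ⟨C, hC⟩ := ha (k + l)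
  have hD : 0 ≤ D := by
    have h0 := hb 0
    have h1 : 0 ≤ D * g 0 ^ k := (abs_nonneg _).trans h0
    by_contra hD
    push Not at hD
    have := mul_neg_of_neg_of_pos hD (pow_pos (g_pos 0) k)
    linarith
  refine ⟨D * C, fun N => ?_⟩
  have hg : 0 ≤ g N ^ l := (pow_pos (g_pos N) l).le
  calc |b N * a N| * g N ^ l = |b N| * (|a N| * g N ^ l) := by rw [abs_mul]; ring
    _ ≤ (D * g N ^ k) * (|a N| * g N ^ l) :=
        mul_le_mul_of_nonneg_right (hb N) (mul_nonneg (abs_nonneg _) hg)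
    _ = D * (|a N| * g N ^ (k + l)) := by rw [pow_add]; ring
    _ ≤ D * C := mul_le_mul_of_nonneg_left (hC N) hD

theorem Sm.const_mul {a : ℕ → ℝ} (ha : Sm a) (c : ℝ) : Sm (fun N => c * a N) :=
  ha.bdd_mul 0 |c| (fun N => by simp)

theorem Sm.neg {a : ℕ → ℝ} (ha : Sm a) : Sm (fun N => - a N) := by
  have := ha.const_mul (-1)
  simpa using this

theorem Sm.sub {a b : ℕ → ℝ} (ha : Sm a) (hb : Sm b) : Sm (fun N => a N - b N) := by
  have := ha.add hb.neg
  simpa [sub_eq_add_neg] using this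

theorem Sm.congr {a b : ℕ → ℝ} (ha : Sm a) (h : ∀ N, b N = a N) : Sm b := by
  have : b = a := funext h
  rwa [this]

/-- Polynomials in the harmonic numbers are bounded by powers of `g`. -/
theorem poly_bound (P : ℝ[X]) : ∃ k D, ∀ N, |P.eval (h N)| ≤ D * g N ^ k := by
  induction P using Polynomial.induction_on' with
  | add p q hp hq =>
    obtain ⟨k, D, hD⟩ := hp
    obtain ⟨l, E, hE⟩ := hq
    refine ⟨k + l, |D| + |E|, fun N => ?_⟩
    rw [eval_add]
    have h1 : g N ^ k ≤ g N ^ (k + l) := pow_le_pow_right₀ (g_ge N) (by omega)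
    have h2 : g N ^ l ≤ g N ^ (k + l) := pow_le_pow_right₀ (g_ge N) (by omega)
    calc |eval (h N) p + eval (h N) q| ≤ |eval (h N) p| + |eval (h N) q| := abs_add_le _ _
      _ ≤ D * g N ^ k + E * g N ^ l := add_le_add (hD N) (hE N)
      _ ≤ |D| * g N ^ (k + l) + |E| * g N ^ (k + l) := by
        apply add_le_add
        · exact mul_le_mul (le_abs_self D) h1 (pow_pos (g_pos N) _).le (abs_nonneg _)
        · exact mul_le_mul (le_abs_self E) h2 (pow_pos (g_pos N) _).le (abs_nonneg _)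
      _ = _ := by ring
  | monomial n a =>
    refine ⟨n, |a|, fun N => ?_⟩
    rw [eval_monomial, abs_mul, abs_pow]
    apply mul_le_mul_of_nonneg_left _ (abs_nonneg _)
    apply pow_le_pow_left₀ (abs_nonneg _)
    rw [abs_of_nonneg (h_nonneg N), g]
    linarith

theorem Sm.poly_mul {a : ℕ → ℝ} (ha : Sm a) (P : ℝ[X]) : Sm (fun N => P.eval (h N) * a N) := by
  obtain ⟨k, D, hD⟩ := poly_bound P
  exact ha.bdd_mul k D hD

theorem Sm.mul_bdd {a : ℕ → ℝ} (ha : Sm a) {b : ℕ → ℝ} (hb : Sm b) : Sm (fun N => a N * b N) := by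
  obtain ⟨C, hC⟩ := ha 0
  apply hb.bdd_mul 0 C
  intro N
  simpa using hC N

theorem Sm_inv : Sm (fun N => 1 / ((N : ℝ) + 1)) := by
  intro k
  refine ⟨k.factorial * Real.exp 2, fun N => ?_⟩
  have hN : (0 : ℝ) < (N : ℝ) + 1 := by positivity
  have h1 := g_pow_le k N
  have h2 : |1 / ((N : ℝ) + 1)| * g N ^ k = g N ^ k / ((N : ℝ) + 1) := by
    rw [abs_of_pos (by positivity)]; ring
  rw [h2, div_le_iff₀ hN]
  exact h1

theorem Sm_inv_pow {k : ℕ} (hk : 1 ≤ k) : Sm (fun N => 1 / ((N : ℝ) + 1) ^ k) := by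
  obtain ⟨j, rfl⟩ : ∃ j, k = j + 1 := ⟨k - 1, by omega⟩
  have h1 := Sm_inv.bdd_mul (b := fun N => 1 / ((N : ℝ) + 1) ^ j) 0 1 (fun N => by
    have hN : (1 : ℝ) ≤ (N : ℝ) + 1 := by
      have : (0 : ℝ) ≤ N := Nat.cast_nonneg N
      linarith
    have h2 : (1 : ℝ) ≤ ((N : ℝ) + 1) ^ j := one_le_pow₀ hN
    rw [abs_of_pos (by positivity), pow_zero, mul_one, div_le_one (by positivity)]
    exact h2)
  refine h1.congr fun N => ?_
  rw [pow_succ, one_div_mul_one_div]

theorem g_tendsto : Filter.Tendsto g Filter.atTop Filter.atTop := by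
  have : g = fun N => 1 + h N := funext fun N => rfl
  rw [this]
  exact Filter.tendsto_atTop_add_const_left _ _ h_tendsto

theorem Sm.tendsto {a : ℕ → ℝ} (ha : Sm a) : Filter.Tendsto a Filter.atTop (nhds 0) := by
  obtain ⟨C, hC⟩ := ha 1
  have h1 : Filter.Tendsto (fun N => C / g N) Filter.atTop (nhds 0) :=
    g_tendsto.const_div_atTop C
  apply squeeze_zero_norm _ h1
  intro N
  rw [Real.norm_eq_abs, le_div_iff₀ (g_pos N)]
  simpa using hC N

/-- The telescoping estimate. -/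
theorem tele (k n : ℕ) : 1 / ((n : ℝ) + 1) / g n ^ (k + 2) ≤
    2 * (1 / g n ^ (k + 1) - 1 / g (n + 1) ^ (k + 1)) := by
  set x := g n with hx
  set y := g (n + 1) with hy
  set t := 1 / ((n : ℝ) + 1) with ht
  have hx1 : 1 ≤ x := g_ge n
  have hx0 : 0 < x := g_pos n
  have hy0 : 0 < y := g_pos (n + 1)
  have ht0 : 0 < t := by positivity
  have hyx : y = x + t := g_succ n
  have hy2 : y ≤ 2 * x := g_succ_le n
  have hxy : x ≤ y := by rw [hyx]; linarith
  -- (1/y)^(k+1) ≤ (1/x)^k * (1/y)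
  have h1 : 1 / y ^ (k + 1) ≤ 1 / x ^ k * (1 / y) := by
    rw [one_div_mul_one_div, pow_succ]
    apply one_div_le_one_div_of_le (by positivity)
    apply mul_le_mul_of_nonneg_right _ hy0.le
    exact pow_le_pow_left₀ hx0.le hxy k
  have h2 : 1 / x ^ (k + 1) = 1 / x ^ k * (1 / x) := by
    rw [one_div_mul_one_div, pow_succ]
  have h3 : t / x ^ (k + 2) = 1 / x ^ k * (t / x ^ 2) := by
    rw [pow_add]; field_simp
  have h4 : t / x ^ 2 ≤ 2 * (1 / x - 1 / y) := by
    have : 1 / x - 1 / y = t / (x * y) := by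
      rw [hyx]; field_simp; ring
    rw [this, ← mul_div_assoc, div_le_div_iff₀ (by positivity) (by positivity)]
    have : x * y ≤ 2 * x ^ 2 := by nlinarith
    nlinarith
  have hk0 : 0 ≤ 1 / x ^ k := by positivity
  calc t / x ^ (k + 2) = 1 / x ^ k * (t / x ^ 2) := h3
    _ ≤ 1 / x ^ k * (2 * (1 / x - 1 / y)) := mul_le_mul_of_nonneg_left h4 hk0
    _ = 2 * (1 / x ^ k * (1 / x) - 1 / x ^ k * (1 / y)) := by ring
    _ ≤ 2 * (1 / x ^ (k + 1) - 1 / y ^ (k + 1)) := by rw [h2]; linarith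

theorem term_bound {e : ℕ → ℝ} {k : ℕ} {C : ℝ} (hC : ∀ N, |e N| * g N ^ (k + 2) ≤ C) (n : ℕ) :
    |e n / ((n : ℝ) + 1)| ≤ 2 * C * (1 / g n ^ (k + 1) - 1 / g (n + 1) ^ (k + 1)) := by
  have h0 : 0 ≤ C := (mul_nonneg (abs_nonneg _) (pow_pos (g_pos 0) _).le).trans (hC 0)
  have h1 : |e n| ≤ C / g n ^ (k + 2) := by
    rw [le_div_iff₀ (pow_pos (g_pos n) _)]
    exact hC n
  have hn : (0 : ℝ) < (n : ℝ) + 1 := by positivity
  calc |e n / ((n : ℝ) + 1)| = |e n| / ((n : ℝ) + 1) := by rw [abs_div, abs_of_pos hn]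
    _ ≤ (C / g n ^ (k + 2)) / ((n : ℝ) + 1) := div_le_div_of_nonneg_right h1 hn.le
    _ = C * (1 / ((n : ℝ) + 1) / g n ^ (k + 2)) := by
        have := (pow_pos (g_pos n) (k + 2)).ne'
        field_simp
    _ ≤ C * (2 * (1 / g n ^ (k + 1) - 1 / g (n + 1) ^ (k + 1))) :=
        mul_le_mul_of_nonneg_left (tele k n) h0
    _ = _ := by ring

theorem sum_bound {e : ℕ → ℝ} {k : ℕ} {C : ℝ} (hC : ∀ N, |e N| * g N ^ (k + 2) ≤ C) (N M : ℕ)
    (hNM : N ≤ M) :
    |∑ n ∈ range M, e n / ((n : ℝ) + 1) - ∑ n ∈ range N, e n / ((n : ℝ) + 1)| ≤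
      2 * C / g N ^ (k + 1) := by
  have h0 : 0 ≤ C := (mul_nonneg (abs_nonneg _) (pow_pos (g_pos 0) _).le).trans (hC 0)
  have key : |∑ n ∈ range M, e n / ((n : ℝ) + 1) - ∑ n ∈ range N, e n / ((n : ℝ) + 1)| ≤
      2 * C * (1 / g N ^ (k + 1) - 1 / g M ^ (k + 1)) := by
    induction M, hNM using Nat.le_induction with
    | base => simp
    | succ M hNM ih =>
      rw [sum_range_succ]
      have h1 := term_bound hC M
      calc |∑ n ∈ range M, e n / ((n : ℝ) + 1) + e M / ((M : ℝ) + 1) -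
            ∑ n ∈ range N, e n / ((n : ℝ) + 1)|
          = |(∑ n ∈ range M, e n / ((n : ℝ) + 1) - ∑ n ∈ range N, e n / ((n : ℝ) + 1)) +
            e M / ((M : ℝ) + 1)| := by congr 1; ring
        _ ≤ _ := abs_add_le _ _
        _ ≤ 2 * C * (1 / g N ^ (k + 1) - 1 / g M ^ (k + 1)) +
            2 * C * (1 / g M ^ (k + 1) - 1 / g (M + 1) ^ (k + 1)) := add_le_add ih h1
        _ = _ := by ring
  refine key.trans ?_
  have h2 : 0 ≤ 1 / g M ^ (k + 1) := by
    have := g_pos M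
    positivity
  calc 2 * C * (1 / g N ^ (k + 1) - 1 / g M ^ (k + 1)) ≤ 2 * C * (1 / g N ^ (k + 1)) := by
        apply mul_le_mul_of_nonneg_left _ (by positivity)
        linarith
    _ = 2 * C / g N ^ (k + 1) := by ring

/-- The sum of a small sequence divided by `n` converges with a small error. -/
theorem Sm.sum {e : ℕ → ℝ} (he : Sm e) :
    ∃ L, Sm (fun N => ∑ n ∈ range N, e n / ((n : ℝ) + 1) - L) := by
  set S : ℕ → ℝ := fun N => ∑ n ∈ range N, e n / ((n : ℝ) + 1) with hS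
  have hcau : CauchySeq S := by
    obtain ⟨C, hC⟩ := he 2
    have h1 : Filter.Tendsto (fun N => 2 * C / g N ^ (0 + 1)) Filter.atTop (nhds 0) := by
      simpa using g_tendsto.const_div_atTop (2 * C)
    apply cauchySeq_of_le_tendsto_0' _ _ h1
    intro N M hNM
    rw [Real.dist_eq, abs_sub_comm]
    exact sum_bound (k := 0) hC N M hNM
  obtain ⟨L, hL⟩ := cauchySeq_tendsto_of_complete hcau
  refine ⟨L, fun k => ?_⟩
  obtain ⟨C, hC⟩ := he (k + 2)
  have h0 : 0 ≤ C := (mul_nonneg (abs_nonneg _) (pow_pos (g_pos 0) _).le).trans (hC 0)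
  refine ⟨2 * C, fun N => ?_⟩
  have h1 : |S N - L| ≤ 2 * C / g N ^ (k + 1) := by
    have h2 : Filter.Tendsto (fun M => |S M - S N|) Filter.atTop (nhds |L - S N|) :=
      (hL.sub_const _).abs
    rw [abs_sub_comm]
    apply le_of_tendsto h2
    filter_upwards [Filter.eventually_ge_atTop N] with M hM
    exact sum_bound hC N M hM
  have h3 := g_ge N
  have h4 := g_pos N
  calc |S N - L| * g N ^ k ≤ (2 * C / g N ^ (k + 1)) * g N ^ k :=
        mul_le_mul_of_nonneg_right h1 (pow_pos h4 k).le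
    _ = 2 * C / g N := by rw [pow_succ]; field_simp
    _ ≤ 2 * C := by
        rw [div_le_iff₀ h4]
        nlinarith

/-! ### Sequences asymptotic to a polynomial in the harmonic numbers -/

/-- `a` is a polynomial in the harmonic numbers up to a small error. -/
def Asy (a : ℕ → ℝ) (P : ℝ[X]) : Prop := Sm (fun N => a N - P.eval (h N))

theorem Asy.congr {a b : ℕ → ℝ} {P : ℝ[X]} (ha : Asy a P) (h : ∀ N, b N = a N) : Asy b P := by
  have : b = a := funext h
  rwa [this]

theorem Asy.add {a b : ℕ → ℝ} {P Q : ℝ[X]} (ha : Asy a P) (hb : Asy b Q) :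
    Asy (fun N => a N + b N) (P + Q) := by
  refine (Sm.add ha hb).congr fun N => ?_
  rw [eval_add]; ring

theorem Asy.const_mul {a : ℕ → ℝ} {P : ℝ[X]} (ha : Asy a P) (c : ℝ) :
    Asy (fun N => c * a N) (C c * P) := by
  refine (Sm.const_mul ha c).congr fun N => ?_
  rw [eval_mul, eval_C]; ring

theorem Asy.mul {a b : ℕ → ℝ} {P Q : ℝ[X]} (ha : Asy a P) (hb : Asy b Q) :
    Asy (fun N => a N * b N) (P * Q) := by
  have h1 := (Sm.mul_bdd ha hb)
  have h2 := Sm.poly_mul hb P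
  have h3 := Sm.poly_mul ha Q
  refine ((h1.add h2).add h3).congr fun N => ?_
  rw [eval_mul]; ring

theorem Asy.const (c : ℝ) : Asy (fun _ => c) (C c) := by
  refine Sm.zero.congr fun N => ?_
  rw [eval_C]; ring

theorem Asy.unique {a : ℕ → ℝ} {P Q : ℝ[X]} (hP : Asy a P) (hQ : Asy a Q) : P = Q := by
  have h1 : Sm (fun N => (P - Q).eval (h N)) := by
    refine (Sm.sub hQ hP).congr fun N => ?_
    rw [eval_sub]; ring
  have h2 := h1.tendsto
  by_cases hd : 0 < (P - Q).degree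
  · exfalso
    have h3 := ((P - Q).abs_tendsto_atTop hd).comp h_tendsto
    have h4 : Filter.Tendsto (fun N => |(P - Q).eval (h N)|) Filter.atTop (nhds |(0 : ℝ)|) := h2.abs
    exact not_tendsto_nhds_of_tendsto_atTop h3 _ h4
  · have h5 : (P - Q) = C ((P - Q).coeff 0) := eq_C_of_degree_le_zero (not_lt.mp hd)
    rw [h5] at h2
    simp only [eval_C] at h2
    have h6 := tendsto_nhds_unique h2 tendsto_const_nhds
    rw [← h6, C_0] at h5
    exact sub_eq_zero.mp h5

/-! ### Summation -/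

/-- The difference `(n+1) (Q(h_{n+1}) - Q(h_n)) - Q'(h_n)` is small. -/
def Good (Q : ℝ[X]) : Prop :=
  Sm (fun n => ((n : ℝ) + 1) * (Q.eval (h (n + 1)) - Q.eval (h n)) - (derivative Q).eval (h n))

theorem Good.diff {Q : ℝ[X]} (hQ : Good Q) : Sm (fun n => Q.eval (h (n + 1)) - Q.eval (h n)) := by
  have h1 := Sm.mul_bdd Sm_inv hQ
  have h2 := Sm.poly_mul Sm_inv (derivative Q)
  refine (h1.add h2).congr fun n => ?_
  have hn : ((n : ℝ) + 1) ≠ 0 := by positivity
  field_simp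
  ring

theorem Good.const (c : ℝ) : Good (C c) := by
  refine Sm.zero.congr fun n => ?_
  simp

theorem Good.X : Good (X : ℝ[X]) := by
  refine Sm.zero.congr fun n => ?_
  have hn : ((n : ℝ) + 1) ≠ 0 := by positivity
  rw [eval_X, eval_X, h_succ, derivative_X, eval_one]
  field_simp
  ring

theorem Good.add {P Q : ℝ[X]} (hP : Good P) (hQ : Good Q) : Good (P + Q) := by
  refine (Sm.add hP hQ).congr fun n => ?_
  rw [derivative_add, eval_add, eval_add, eval_add]; ring

theorem Good.mul {P Q : ℝ[X]} (hP : Good P) (hQ : Good Q) : Good (P * Q) := by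
  have h1 := Sm.poly_mul hP Q
  have h2 := Sm.mul_bdd hP hQ.diff
  have h3 := Sm.poly_mul hQ.diff (derivative P)
  have h4 := Sm.poly_mul hQ P
  refine (((h1.add h2).add h3).add h4).congr fun n => ?_
  rw [derivative_mul, eval_add, eval_mul, eval_mul, eval_mul, eval_mul]
  ring

theorem good (Q : ℝ[X]) : Good Q := by
  induction Q using Polynomial.induction_on with
  | C a => exact Good.const a
  | add p q hp hq => exact hp.add hq
  | monomial n a ih =>
    rw [pow_succ, ← mul_assoc]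
    exact ih.mul Good.X

theorem exists_antideriv (P : ℝ[X]) : ∃ Q : ℝ[X], derivative Q = P := by
  induction P using Polynomial.induction_on' with
  | add p q hp hq =>
    obtain ⟨P, hP⟩ := hp
    obtain ⟨Q, hQ⟩ := hq
    exact ⟨P + Q, by rw [derivative_add, hP, hQ]⟩
  | monomial n a =>
    refine ⟨monomial (n + 1) (a / (n + 1)), ?_⟩
    rw [derivative_monomial]
    have : ((n : ℝ) + 1) ≠ 0 := by positivity
    congr 1
    push_cast
    field_simp

/-- Summation with weight `1/n`. -/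
theorem Asy.sum {a : ℕ → ℝ} {P : ℝ[X]} (ha : Asy a P) :
    ∃ Q, derivative Q = P ∧ Asy (fun N => ∑ n ∈ range N, (1 / ((n : ℝ) + 1)) * a n) Q := by
  obtain ⟨Q, hQ⟩ := exists_antideriv P
  have h1 : Sm (fun n => (a n - P.eval (h n)) -
      (((n : ℝ) + 1) * (Q.eval (h (n + 1)) - Q.eval (h n)) - (derivative Q).eval (h n))) :=
    Sm.sub ha (good Q)
  obtain ⟨L, hL⟩ := h1.sum
  refine ⟨Q + C (L - Q.eval 0), by rw [derivative_add, derivative_C, add_zero, hQ], ?_⟩
  refine hL.congr fun N => ?_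
  have key : ∀ N : ℕ, ∑ n ∈ range N, ((a n - P.eval (h n)) -
      (((n : ℝ) + 1) * (Q.eval (h (n + 1)) - Q.eval (h n)) - (derivative Q).eval (h n))) /
        ((n : ℝ) + 1) = ∑ n ∈ range N, (1 / ((n : ℝ) + 1)) * a n - (Q.eval (h N) - Q.eval 0) := by
    intro N
    induction N with
    | zero => simp [h_zero]
    | succ N ih =>
      rw [sum_range_succ, ih, sum_range_succ, hQ]
      have hn : ((N : ℝ) + 1) ≠ 0 := by positivity
      field_simp
      ring
  rw [key, eval_add, eval_C]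
  ring

/-- Summation with weight `1/n^k`, `k ≥ 2`. -/
theorem Asy.sum_pow {a : ℕ → ℝ} {P : ℝ[X]} (ha : Asy a P) {k : ℕ} (hk : 2 ≤ k) :
    ∃ c, Asy (fun N => ∑ n ∈ range N, (1 / ((n : ℝ) + 1) ^ k) * a n) (C c) := by
  obtain ⟨j, rfl⟩ : ∃ j, k = (j + 1) + 1 := ⟨k - 2, by omega⟩
  have h1 : Sm (fun n => (1 / ((n : ℝ) + 1) ^ (j + 1)) * a n) := by
    have h2 := Sm.mul_bdd (Sm_inv_pow (k := j + 1) (by omega)) ha
    have h3 := Sm.poly_mul (Sm_inv_pow (k := j + 1) (by omega)) P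
    refine (h2.add h3).congr fun n => ?_
    ring
  obtain ⟨L, hL⟩ := h1.sum
  refine ⟨L, hL.congr fun N => ?_⟩
  rw [eval_C]
  congr 1
  apply sum_congr rfl
  intro n _
  have hn : ((n : ℝ) + 1) ≠ 0 := by positivity
  field_simp
  ring

/-! ### The polynomials attached to compositions -/

theorem exists_poly (w : List ℕ+) : ∃ P, Asy (Z w) P := by
  induction w with
  | nil => exact ⟨C 1, Asy.const 1⟩
  | cons k w ih =>
    obtain ⟨P, hP⟩ := ih
    by_cases hk : k = 1
    · subst hk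
      obtain ⟨Q, _, hQ⟩ := hP.sum
      refine ⟨Q, hQ.congr fun N => ?_⟩
      rw [Z_cons]
      simp
    · have h2 : 2 ≤ (k : ℕ) := by
        have h3 : (k : ℕ) ≠ 1 := fun h => hk (PNat.coe_injective h)
        have := k.pos
        omega
      obtain ⟨c, hc⟩ := hP.sum_pow h2
      exact ⟨C c, hc.congr fun N => Z_cons k w N⟩

/-- The polynomial `P_w` with `Z w N = P_w(h N) + small`. -/
def PZ (w : List ℕ+) : ℝ[X] := (exists_poly w).choose

theorem PZ_asy (w : List ℕ+) : Asy (Z w) (PZ w) := (exists_poly w).choose_spec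

theorem PZ_eq {w : List ℕ+} {P : ℝ[X]} (hP : Asy (Z w) P) : PZ w = P := (PZ_asy w).unique hP

theorem PZ_nil : PZ [] = 1 := by
  have h1 := Asy.const 1
  rw [C_1] at h1
  exact PZ_eq h1

theorem PZ_one_letter : PZ [1] = X := by
  apply PZ_eq
  refine Sm.zero.congr fun N => ?_
  rw [Z_one, eval_X, sub_self]

theorem PZ_cons_one (w : List ℕ+) : derivative (PZ (1 :: w)) = PZ w := by
  obtain ⟨Q, h1, hQ⟩ := (PZ_asy w).sum
  have h2 : PZ (1 :: w) = Q := PZ_eq (hQ.congr fun N => by rw [Z_cons]; simp)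
  rw [h2, h1]

theorem PZ_cons_ne {k : ℕ+} (hk : k ≠ 1) (w : List ℕ+) : ∃ c, PZ (k :: w) = C c := by
  have h2 : 2 ≤ (k : ℕ) := by
    have h3 : (k : ℕ) ≠ 1 := fun h => hk (PNat.coe_injective h)
    have := k.pos
    omega
  obtain ⟨c, hc⟩ := (PZ_asy w).sum_pow h2
  exact ⟨c, PZ_eq (hc.congr fun N => Z_cons k w N)⟩

open Pool.Agent.ECG in
theorem PZ_stuffle (u v : List ℕ+) : stE PZ u v = PZ u * PZ v := by
  have h1 : ∀ (u v : List ℕ+) (F : List ℕ+ → ℕ → ℝ) (G : List ℕ+ → ℝ[X]),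
      (∀ w, Asy (F w) (G w)) → Asy (fun N => stE (fun w => F w N) u v) (stE G u v) := by
    intro u v
    induction u, v using two_induction with
    | h1 v => intro F G hF; simp only [stE_nil_left]; exact hF v
    | h2 u => intro F G hF; simp only [stE_nil_right]; exact hF u
    | h3 a b u v i1 i2 i3 =>
      intro F G hF
      simp only [stE_cons_cons]
      exact ((i1 (fun w => F (a :: w)) (fun w => G (a :: w)) (fun w => hF _)).add
        (i2 (fun w => F (b :: w)) (fun w => G (b :: w)) (fun w => hF _))).add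
        (i3 (fun w => F ((a + b) :: w)) (fun w => G ((a + b) :: w)) (fun w => hF _))
  have h2 := h1 u v Z PZ PZ_asy
  have h3 := (PZ_asy u).mul (PZ_asy v)
  exact h2.unique (h3.congr fun N => Z_stuffle u v N)

end

end Pool.Agent.ECR
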