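import Mathlib
import Pool.Agent.ECR.Words

/-!
# Multiple polylogarithms as formal power series: the shuffle product
-/

set_option autoImplicit false

namespace Pool.Agent.ECR

open Finset PowerSeries Pool.Agent.ECG

noncomputable section

/-- Coefficients of the multiple polylogarithm attached to a word. -/
def lam : List (Fin 2) → ℕ → ℝ
  | [], n => if n = 0 then 1 else 0
  | a :: w, n => if a = 0 then lam w n / n else (∑ m ∈ range n, lam w m) / n

theorem lam_nil (n : ℕ) : lam [] n = if n = 0 then 1 else 0 := rfl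

theorem lam_zero_cons (w : List (Fin 2)) (n : ℕ) : lam (0 :: w) n = lam w n / n := by
  rw [lam, if_pos rfl]

theorem lam_one_cons (w : List (Fin 2)) (n : ℕ) :
    lam (1 :: w) n = (∑ m ∈ range n, lam w m) / n := by
  rw [lam, if_neg (by decide)]

theorem lam_cons_at_zero (a : Fin 2) (w : List (Fin 2)) : lam (a :: w) 0 = 0 := by
  rw [lam]; split_ifs <;> simp

theorem lam_bound (w : List (Fin 2)) : ∀ n, 0 ≤ lam w n ∧ lam w n ≤ 1 := by
  induction w with
  | nil => intro n; rw [lam_nil]; split_ifs <;> norm_num
  | cons a w ih =>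
    intro n
    rcases Nat.eq_zero_or_pos n with rfl | hn
    · rw [lam_cons_at_zero]; norm_num
    · have hn' : (1 : ℝ) ≤ n := by exact_mod_cast hn
      have hn0 : (0 : ℝ) < n := by linarith
      rw [lam]
      split_ifs
      · refine ⟨div_nonneg (ih n).1 hn0.le, ?_⟩
        rw [div_le_one hn0]
        linarith [(ih n).2]
      · refine ⟨div_nonneg (sum_nonneg fun m _ => (ih m).1) hn0.le, ?_⟩
        rw [div_le_one hn0]
        calc ∑ m ∈ range n, lam w m ≤ ∑ m ∈ range n, (1 : ℝ) := sum_le_sum fun m _ => (ih m).2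
          _ = n := by simp

/-- The multiple polylogarithm attached to a word, as a formal power series. -/
def L (w : List (Fin 2)) : ℝ⟦X⟧ := PowerSeries.mk (lam w)

theorem L_nil : L [] = 1 := by
  ext n
  rw [L, coeff_mk, lam_nil, coeff_one]

theorem constCoeff_L_cons (a : Fin 2) (w : List (Fin 2)) : constantCoeff (L (a :: w)) = 0 := by
  rw [← coeff_zero_eq_constantCoeff_apply, L, coeff_mk, lam_cons_at_zero]

theorem X_mul_dL_zero {w : List (Fin 2)} (hw : w ≠ []) :
    X * d⁄dX ℝ (L (0 :: w)) = L w := by
  ext n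
  cases n with
  | zero =>
    obtain ⟨a, v, rfl⟩ := List.exists_cons_of_ne_nil hw
    simp only [L, coeff_zero_eq_constantCoeff, map_mul, constantCoeff_X, zero_mul]
    rw [← coeff_zero_eq_constantCoeff_apply, coeff_mk, lam_cons_at_zero]
  | succ n =>
    rw [coeff_succ_X_mul, coeff_derivative, L, L, coeff_mk, coeff_mk, lam_zero_cons]
    push_cast
    have : ((n : ℝ) + 1) ≠ 0 := by positivity
    field_simp

theorem X_mul_dL_one (w : List (Fin 2)) :
    (1 - X) * d⁄dX ℝ (L (1 :: w)) = L w := by
  ext n
  rw [sub_mul, one_mul, map_sub]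
  cases n with
  | zero =>
    rw [coeff_derivative, L, L, coeff_mk, coeff_mk, lam_one_cons]
    simp
  | succ n =>
    rw [coeff_succ_X_mul, coeff_derivative, coeff_derivative, L, L, coeff_mk, coeff_mk, coeff_mk,
      lam_one_cons, lam_one_cons, sum_range_succ]
    push_cast
    have : ((n : ℝ) + 1) ≠ 0 := by positivity
    have : ((n : ℝ) + 1 + 1) ≠ 0 := by positivity
    field_simp
    ring

/-- `om 0 = 1 - X`, `om 1 = X`. -/
def om (a : Fin 2) : ℝ⟦X⟧ := if a = 0 then 1 - X else X

theorem om_L (a : Fin 2) {w : List (Fin 2)} (hw : w ≠ []) :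
    X * (1 - X) * d⁄dX ℝ (L (a :: w)) = om a * L w := by
  fin_cases a
  · simp only [om, Fin.mk_zero, Fin.isValue, if_true]
    rw [mul_comm X, mul_assoc, X_mul_dL_zero hw]
  · have : om 1 = X := by rw [om, if_neg (by decide)]
    simp only [Fin.mk_one, Fin.isValue, this]
    rw [mul_assoc, X_mul_dL_one]

theorem om_L' {a : Fin 2} {w : List (Fin 2)} (hw : E1 (a :: w)) :
    X * (1 - X) * d⁄dX ℝ (L (a :: w)) = om a * L w := by
  by_cases h : w = []
  · subst h
    have ha : a = 1 := by
      rcases hw with h | ⟨v, h⟩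
      · exact absurd h (by simp)
      · cases v with
        | nil => simpa using h
        | cons c v => simp at h
    subst ha
    have : om 1 = X := by rw [om, if_neg (by decide)]
    rw [this, mul_assoc, X_mul_dL_one]
  · exact om_L a h

theorem shE_ne_nil_const {a : Fin 2} (u v : List (Fin 2)) :
    constantCoeff (shE L (a :: u) v) = 0 := by
  have h1 : ∀ (u v : List (Fin 2)) (Φ : List (Fin 2) → ℝ⟦X⟧),
      (∀ w, w.length = u.length + v.length → constantCoeff (Φ w) = 0) →
      constantCoeff (shE Φ u v) = 0 := by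
    intro u v Φ h
    have h2 := sh_map (constantCoeff (R := ℝ)).toAddMonoidHom u v Φ
    have h3 : shE (fun w => (constantCoeff (R := ℝ)).toAddMonoidHom (Φ w)) u v = 0 := by
      have h4 : ∀ w : List (Fin 2), w.length = u.length + v.length →
          (constantCoeff (R := ℝ)).toAddMonoidHom (Φ w) = 0 := h
      rw [sh_congr_len u v _ (fun _ => 0) h4]
      have := sh_smul u v (0 : ℝ) (fun _ => 0)
      simpa using this
    rw [h3] at h2
    exact h2.symm
  apply h1
  intro w hw
  cases w with
  | nil =>
    simp only [List.length_nil, List.length_cons] at hw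
    omega
  | cons b w => exact constCoeff_L_cons b w

theorem X_mul_one_sub_ne : (X * (1 - X) : ℝ⟦X⟧) ≠ 0 := by
  apply mul_ne_zero X_ne_zero
  intro h
  have := congrArg constantCoeff h
  simp at this

/-- The shuffle product formula for multiple polylogarithms. -/
theorem L_shuffle (u v : List (Fin 2)) (hu : E1 u) (hv : E1 v) : shE L u v = L u * L v := by
  induction u, v using two_induction with
  | h1 v => rw [shE_nil_left, L_nil, one_mul]
  | h2 u => rw [shE_nil_right, L_nil, mul_one]
  | h3 a b u v i1 i2 _ =>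
    have j1 := i1 (E1_tail hu) hv
    have j2 := i2 hu (E1_tail hv)
    apply PowerSeries.derivative.ext
    · apply mul_left_cancel₀ X_mul_one_sub_ne
      rw [Derivation.leibniz, smul_eq_mul, smul_eq_mul, shE_cons_cons, map_add, mul_add]
      have k1 : ∀ (c : Fin 2) (x y : List (Fin 2)), x.length + y.length ≠ 0 → E1 x → E1 y →
          X * (1 - X) * d⁄dX ℝ (shE (fun w => L (c :: w)) x y) = om c * shE L x y := by
        intro c x y hl hx hy
        rw [← sh_smul x y (om c) L]
        have e1 : X * (1 - X) * d⁄dX ℝ (shE (fun w => L (c :: w)) x y) =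
            shE (fun w => X * (1 - X) * d⁄dX ℝ (L (c :: w))) x y := by
          rw [sh_smul x y (X * (1 - X)) (fun w => d⁄dX ℝ (L (c :: w)))]
          congr 1
          exact (sh_map (d⁄dX ℝ : ℝ⟦X⟧ →ₗ[ℝ] ℝ⟦X⟧).toAddMonoidHom x y _).symm
        rw [e1]
        apply sh_congr_E1 x y _ _ hx hy
        intro w _ hw
        apply om_L
        rintro rfl
        simp only [List.length_nil] at hw
        omega
      rw [k1 a u (b :: v) (by simp) (E1_tail hu) hv, k1 b (a :: u) v (by simp) hu (E1_tail hv),
        j1, j2]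
      have k2 := om_L' hu
      have k3 := om_L' hv
      linear_combination (-(L (b :: v))) * k2 - (L (a :: u)) * k3
    · rw [shE_ne_nil_const, map_mul, constCoeff_L_cons, zero_mul]

end

end Pool.Agent.ECR
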