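import Mathlib
import Pool.Agent.ECR.Li
import Pool.Agent.ECR.Asym

/-!
# Comparison of the two regularisations
-/

set_option autoImplicit false

namespace Pool.Agent.ECR

open Finset Pool.Agent.ECG Pool.Agent.H4DM Filter Topology

noncomputable section

/-! ### Evaluation of power series with bounded coefficients -/

/-- The value of the multiple polylogarithm. -/
def Li (w : List (Fin 2)) (z : ℝ) : ℝ := ∑' n, lam w n * z ^ n

theorem summable_of_bdd {a : ℕ → ℝ} {C : ℝ} (ha : ∀ n, |a n| ≤ C) {z : ℝ} (hz0 : 0 ≤ z)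
    (hz1 : z < 1) : Summable (fun n => ‖a n * z ^ n‖) := by
  have h1 : Summable (fun n => C * z ^ n) := (summable_geometric_of_lt_one hz0 hz1).mul_left C
  apply Summable.of_nonneg_of_le (fun n => norm_nonneg _) _ h1
  intro n
  rw [norm_mul, Real.norm_eq_abs, Real.norm_eq_abs, abs_of_nonneg (pow_nonneg hz0 n)]
  exact mul_le_mul_of_nonneg_right (ha n) (pow_nonneg hz0 n)

theorem lam_abs (w : List (Fin 2)) (n : ℕ) : |lam w n| ≤ 1 := by
  rw [abs_of_nonneg (lam_bound w n).1]
  exact (lam_bound w n).2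

theorem Li_nil (z : ℝ) : Li [] z = 1 := by
  rw [Li, tsum_eq_single 0]
  · simp [lam_nil]
  · intro n hn
    simp [lam_nil, hn]

/-- Evaluation at `z` of the product of two polylogarithms. -/
theorem Li_mul (u v : List (Fin 2)) {z : ℝ} (hz0 : 0 ≤ z) (hz1 : z < 1) :
    ∑' n, (PowerSeries.coeff n (L u * L v)) * z ^ n = Li u z * Li v z := by
  rw [Li, Li, tsum_mul_tsum_eq_tsum_sum_antidiagonal_of_summable_norm
    (summable_of_bdd (lam_abs u) hz0 hz1) (summable_of_bdd (lam_abs v) hz0 hz1)]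
  congr 1
  ext n
  rw [PowerSeries.coeff_mul, sum_mul]
  apply sum_congr rfl
  intro p hp
  rw [HasAntidiagonal.mem_antidiagonal] at hp
  rw [L, L, PowerSeries.coeff_mk, PowerSeries.coeff_mk, ← hp, pow_add]
  ring

theorem shE_summable {α : Type} (u v : List α) {z : ℝ} :
    ∀ (F : List α → ℕ → ℝ), (∀ w, Summable (fun n => F w n * z ^ n)) →
      Summable (fun n => shE (fun w => F w n) u v * z ^ n) ∧
      ∑' n, shE (fun w => F w n) u v * z ^ n = shE (fun w => ∑' n, F w n * z ^ n) u v := by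
  induction u, v using two_induction with
  | h1 v => intro F hF; simp only [shE_nil_left]; exact ⟨hF v, trivial⟩
  | h2 u => intro F hF; simp only [shE_nil_right]; exact ⟨hF u, trivial⟩
  | h3 a b u v i1 i2 _ =>
    intro F hF
    simp only [shE_cons_cons, add_mul]
    obtain ⟨s1, t1⟩ := i1 (fun w => F (a :: w)) (fun w => hF _)
    obtain ⟨s2, t2⟩ := i2 (fun w => F (b :: w)) (fun w => hF _)
    refine ⟨s1.add s2, ?_⟩
    rw [Summable.tsum_add s1 s2, t1, t2]

/-- The shuffle product formula for values of polylogarithms. -/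
theorem Li_shuffle (u v : List (Fin 2)) (hu : E1 u) (hv : E1 v) {z : ℝ} (hz0 : 0 ≤ z)
    (hz1 : z < 1) : shE (fun w => Li w z) u v = Li u z * Li v z := by
  have h1 := (shE_summable u v lam (z := z) (fun w =>
    (summable_of_bdd (lam_abs w) hz0 hz1).of_norm)).2
  rw [← Li_mul u v hz0 hz1, ← L_shuffle u v hu hv]
  have h2 : ∀ n, PowerSeries.coeff n (shE L u v) = shE (fun w => lam w n) u v := by
    intro n
    have h3 := sh_map (PowerSeries.coeff (R := ℝ) n).toAddMonoidHom u v L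
    have h4 : (fun w => (PowerSeries.coeff (R := ℝ) n).toAddMonoidHom (L w)) =
        fun w => lam w n := by
      funext w
      exact PowerSeries.coeff_mk n (lam w)
    rw [h4] at h3
    exact h3.symm
  simp only [h2]
  exact h1.symm

/-! ### The variable `T = -log (1 - z)` -/

/-- `T z = -log (1 - z)`. -/
def T (z : ℝ) : ℝ := -Real.log (1 - z)

theorem T_nonneg {z : ℝ} (hz0 : 0 ≤ z) (hz1 : z < 1) : 0 ≤ T z := by
  have : Real.log (1 - z) ≤ 0 := Real.log_nonpos (by linarith) (by linarith)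
  rw [T]; linarith

theorem Li_one {z : ℝ} (hz0 : 0 ≤ z) (hz1 : z < 1) : Li [1] z = T z := by
  have h1 := Real.hasSum_pow_div_log_of_abs_lt_one (x := z) (by rwa [abs_of_nonneg hz0])
  have h2 : HasSum (fun n : ℕ => lam [1] (n + 1) * z ^ (n + 1)) (-Real.log (1 - z)) := by
    convert h1 using 2 with n
    rw [lam_one_cons]
    have h3 : ∑ m ∈ range (n + 1), lam [] m = 1 := by
      rw [sum_eq_single 0]
      · simp [lam_nil]
      · intro b _ hb; simp [lam_nil, hb]
      · intro h; simp at h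
    rw [h3]
    push_cast
    ring
  have h4 := (hasSum_nat_add_iff (f := fun n : ℕ => lam [1] n * z ^ n) 1).mp h2
  rw [Li, h4.tsum_eq, T]
  simp [lam_cons_at_zero]

theorem sh_rep {R : Type*} [CommRing R] {α : Type} (a : α) (j : ℕ) : ∀ Φ : List α → R,
    shE Φ [a] (List.replicate j a) = (j + 1) * Φ (List.replicate (j + 1) a) := by
  induction j with
  | zero => intro Φ; simp
  | succ j ih =>
    intro Φ
    rw [List.replicate_succ, shE_cons_cons, shE_nil_left, ih (fun w => Φ (a :: w))]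
    push_cast
    rw [← List.replicate_succ, ← List.replicate_succ]
    ring

theorem E1_rep (j : ℕ) : E1 (List.replicate j 1) := by
  induction j with
  | zero => exact E1_nil
  | succ j ih => exact E1_cons_one ih

theorem Li_ones (j : ℕ) {z : ℝ} (hz0 : 0 ≤ z) (hz1 : z < 1) :
    Li (List.replicate j 1) z = T z ^ j / j.factorial := by
  induction j with
  | zero => simp [Li_nil]
  | succ j ih =>
    have h1 := Li_shuffle [1] (List.replicate j 1) (E1_rep 1) (E1_rep j) hz0 hz1
    rw [sh_rep 1 j (fun w => Li w z), Li_one hz0 hz1, ih] at h1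
    rw [Nat.factorial_succ]
    push_cast
    have h2 : ((j : ℝ) + 1) ≠ 0 := by positivity
    have h3 : (j.factorial : ℝ) ≠ 0 := by positivity
    field_simp at h1 ⊢
    linear_combination h1

/-- Functions of `z` smaller than every negative power of `T z`. -/
def SmT (e : ℝ → ℝ) : Prop := ∀ k : ℕ, ∃ C, ∀ z, 0 ≤ z → z < 1 → |e z| * T z ^ k ≤ C

theorem SmT.add {a b : ℝ → ℝ} (ha : SmT a) (hb : SmT b) : SmT (fun z => a z + b z) := by
  intro k
  obtain ⟨C, hC⟩ := ha k
  obtain ⟨D, hD⟩ := hb k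
  refine ⟨C + D, fun z h0 h1 => ?_⟩
  calc |a z + b z| * T z ^ k ≤ (|a z| + |b z|) * T z ^ k :=
        mul_le_mul_of_nonneg_right (abs_add_le _ _) (pow_nonneg (T_nonneg h0 h1) k)
    _ = |a z| * T z ^ k + |b z| * T z ^ k := by ring
    _ ≤ C + D := add_le_add (hC z h0 h1) (hD z h0 h1)

theorem SmT.congr {a b : ℝ → ℝ} (ha : SmT a) (h : ∀ z, 0 ≤ z → z < 1 → b z = a z) : SmT b := by
  intro k
  obtain ⟨C, hC⟩ := ha k
  exact ⟨C, fun z h0 h1 => by rw [h z h0 h1]; exact hC z h0 h1⟩

theorem SmT.mul {a b : ℝ → ℝ} (ha : SmT a) (hb : SmT b) : SmT (fun z => a z * b z) := by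
  intro k
  obtain ⟨C, hC⟩ := ha 0
  obtain ⟨D, hD⟩ := hb k
  refine ⟨C * D, fun z h0 h1 => ?_⟩
  have hC' := hC z h0 h1
  rw [pow_zero, mul_one] at hC'
  calc |a z * b z| * T z ^ k = |a z| * (|b z| * T z ^ k) := by rw [abs_mul]; ring
    _ ≤ C * D := mul_le_mul hC' (hD z h0 h1)
        (mul_nonneg (abs_nonneg _) (pow_nonneg (T_nonneg h0 h1) k)) ((abs_nonneg _).trans hC')

theorem SmT.const_mul {a : ℝ → ℝ} (ha : SmT a) (c : ℝ) : SmT (fun z => c * a z) := by
  intro k
  obtain ⟨C, hC⟩ := ha k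
  refine ⟨|c| * C, fun z h0 h1 => ?_⟩
  calc |c * a z| * T z ^ k = |c| * (|a z| * T z ^ k) := by rw [abs_mul]; ring
    _ ≤ |c| * C := mul_le_mul_of_nonneg_left (hC z h0 h1) (abs_nonneg _)

theorem SmT.T_mul {a : ℝ → ℝ} (ha : SmT a) : SmT (fun z => T z * a z) := by
  intro k
  obtain ⟨C, hC⟩ := ha (k + 1)
  refine ⟨C, fun z h0 h1 => ?_⟩
  have hT := T_nonneg h0 h1
  calc |T z * a z| * T z ^ k = |a z| * T z ^ (k + 1) := by
        rw [abs_mul, abs_of_nonneg hT, pow_succ]; ring
    _ ≤ C := hC z h0 h1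

theorem SmT.poly_mul {a : ℝ → ℝ} (ha : SmT a) (P : Polynomial ℝ) :
    SmT (fun z => P.eval (T z) * a z) := by
  induction P using Polynomial.induction_on with
  | C c =>
    refine (ha.const_mul c).congr fun z _ _ => ?_
    rw [Polynomial.eval_C]
  | add p q hp hq =>
    refine (hp.add hq).congr fun z _ _ => ?_
    rw [Polynomial.eval_add]; ring
  | monomial n c ih =>
    refine ih.T_mul.congr fun z _ _ => ?_
    simp only [Polynomial.eval_mul, Polynomial.eval_C, Polynomial.eval_pow, Polynomial.eval_X]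
    ring

/-- `e` is a polynomial in `T` up to a small error. -/
def AsyT (e : ℝ → ℝ) (P : Polynomial ℝ) : Prop := SmT (fun z => e z - P.eval (T z))

theorem AsyT.congr {a b : ℝ → ℝ} {P : Polynomial ℝ} (ha : AsyT a P)
    (h : ∀ z, 0 ≤ z → z < 1 → b z = a z) : AsyT b P :=
  SmT.congr ha fun z h0 h1 => by rw [h z h0 h1]

theorem AsyT.add {a b : ℝ → ℝ} {P Q : Polynomial ℝ} (ha : AsyT a P) (hb : AsyT b Q) :
    AsyT (fun z => a z + b z) (P + Q) := by
  refine (SmT.add ha hb).congr fun z _ _ => ?_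
  rw [Polynomial.eval_add]; ring

theorem AsyT.mul {a b : ℝ → ℝ} {P Q : Polynomial ℝ} (ha : AsyT a P) (hb : AsyT b Q) :
    AsyT (fun z => a z * b z) (P * Q) := by
  have h1 := SmT.mul ha hb
  have h2 := SmT.poly_mul hb P
  have h3 := SmT.poly_mul ha Q
  refine ((h1.add h2).add h3).congr fun z _ _ => ?_
  rw [Polynomial.eval_mul]; ring

theorem AsyT.unique {a : ℝ → ℝ} {P Q : Polynomial ℝ} (hP : AsyT a P) (hQ : AsyT a Q) :
    P = Q := by
  have h1 : SmT (fun z => (P - Q).eval (T z)) := by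
    refine (SmT.add hQ (hP.const_mul (-1))).congr fun z _ _ => ?_
    rw [Polynomial.eval_sub]; ring
  obtain ⟨C, hC⟩ := h1 1
  have h2 : ∀ t : ℝ, 0 ≤ t → |(P - Q).eval t| * t ≤ C := by
    intro t ht
    have h3 : T (1 - Real.exp (-t)) = t := by
      rw [T, show 1 - (1 - Real.exp (-t)) = Real.exp (-t) by ring, Real.log_exp, neg_neg]
    have h4 := hC (1 - Real.exp (-t)) (by
      have : Real.exp (-t) ≤ 1 := Real.exp_le_one_iff.mpr (by linarith)
      linarith) (by linarith [Real.exp_pos (-t)])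
    simp only [h3, pow_one] at h4
    exact h4
  have h3 : Tendsto (fun t : ℝ => |(P - Q).eval t|) atTop (𝓝 0) := by
    have h4 : Tendsto (fun t : ℝ => C / t) atTop (𝓝 0) := tendsto_id.const_div_atTop C
    apply squeeze_zero' (Eventually.of_forall fun t => abs_nonneg _) _ h4
    filter_upwards [eventually_gt_atTop (0 : ℝ)] with t ht
    rw [le_div_iff₀ ht]
    exact h2 t ht.le
  by_cases hd : 0 < (P - Q).degree
  · exact absurd h3 (not_tendsto_nhds_of_tendsto_atTop ((P - Q).abs_tendsto_atTop hd) _)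
  · have h5 : (P - Q) = Polynomial.C ((P - Q).coeff 0) :=
      Polynomial.eq_C_of_degree_le_zero (not_lt.mp hd)
    rw [h5] at h3
    simp only [Polynomial.eval_C] at h3
    have h6 := tendsto_nhds_unique h3 tendsto_const_nhds
    have h7 : (P - Q).coeff 0 = 0 := abs_eq_zero.mp h6.symm
    rw [h7, Polynomial.C_0] at h5
    exact sub_eq_zero.mp h5

/-! ### The Abelian estimate -/

theorem abel_sum {a f : ℕ → ℝ} {B : ℝ} (hB : ∀ n, |a n| ≤ B)
    (hf : ∀ n, ∑ m ∈ range (n + 1), f m = a n) {z : ℝ} (hz0 : 0 ≤ z) (hz1 : z < 1) :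
    ∑' n, f n * z ^ n = (1 - z) * ∑' n, a n * z ^ n := by
  have hs : Summable (fun n => a n * z ^ n) := (summable_of_bdd hB hz0 hz1).of_norm
  have h1 := hs.hasSum
  set A := ∑' n, a n * z ^ n with hA
  have f0 : f 0 = a 0 := by simpa using hf 0
  have fs : ∀ n, f (n + 1) = a (n + 1) - a n := by
    intro n
    have := hf (n + 1)
    rw [sum_range_succ, hf n] at this
    linarith
  have h2 : HasSum (fun n => a (n + 1) * z ^ (n + 1)) (A - a 0) := by
    have := (hasSum_nat_add_iff' (f := fun n => a n * z ^ n) 1).mpr h1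
    simpa using this
  have h3 : HasSum (fun n => a n * z ^ (n + 1)) (A * z) := by
    have := h1.mul_right z
    refine this.congr_fun ?_
    intro n
    ring
  have h4 : HasSum (fun n => f (n + 1) * z ^ (n + 1)) (A - a 0 - A * z) := by
    refine (h2.sub h3).congr_fun ?_
    intro n
    rw [fs]; ring
  have h5 := (hasSum_nat_add_iff (f := fun n => f n * z ^ n) 1).mp h4
  rw [h5.tsum_eq]
  simp [f0]
  ring

theorem abel_bound {a : ℕ → ℝ} {B D : ℝ} {M : ℕ} (hB : ∀ n, |a n| ≤ B)
    (hD : ∀ n, M ≤ n → |a n| ≤ D) {z : ℝ} (hz0 : 0 ≤ z) (hz1 : z < 1) :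
    |(1 - z) * ∑' n, a n * z ^ n| ≤ (1 - z) * M * B + D := by
  have hB0 : 0 ≤ B := (abs_nonneg _).trans (hB 0)
  have hD0 : 0 ≤ D := (abs_nonneg _).trans (hD M le_rfl)
  have h1z : 0 < 1 - z := by linarith
  have hs := summable_of_bdd hB hz0 hz1
  have h1 : |∑' n, a n * z ^ n| ≤ ∑' n, ‖a n * z ^ n‖ := norm_tsum_le_tsum_norm hs
  have hs2 : HasSum (fun n => if n < M then B else 0) (M * B) := by
    have h2 : (M : ℝ) * B = ∑ n ∈ range M, (if n < M then B else 0) := by
      rw [sum_congr rfl (g := fun _ => B) (fun n hn => if_pos (mem_range.mp hn))]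
      simp
    rw [h2]
    apply hasSum_sum_of_ne_finset_zero
    intro n hn
    rw [mem_range] at hn
    exact if_neg hn
  have hs3 : HasSum (fun n => D * z ^ n) (D * (1 - z)⁻¹) :=
    (hasSum_geometric_of_lt_one hz0 hz1).mul_left D
  have h3 : ∑' n, ‖a n * z ^ n‖ ≤ M * B + D * (1 - z)⁻¹ := by
    rw [← (hs2.add hs3).tsum_eq]
    apply Summable.tsum_le_tsum _ hs (hs2.add hs3).summable
    intro n
    have hzn : 0 ≤ z ^ n := pow_nonneg hz0 n
    have hzn1 : z ^ n ≤ 1 := pow_le_one₀ hz0 hz1.le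
    rw [norm_mul, Real.norm_eq_abs, Real.norm_eq_abs, abs_of_nonneg hzn]
    split_ifs with hn
    · have h4 : |a n| * z ^ n ≤ B * 1 := mul_le_mul (hB n) hzn1 hzn hB0
      have h5 : 0 ≤ D * z ^ n := mul_nonneg hD0 hzn
      linarith
    · rw [zero_add]
      exact mul_le_mul_of_nonneg_right (hD n (not_lt.mp hn)) hzn
  rw [abs_mul, abs_of_pos h1z]
  calc (1 - z) * |∑' n, a n * z ^ n| ≤ (1 - z) * (M * B + D * (1 - z)⁻¹) :=
        mul_le_mul_of_nonneg_left (h1.trans h3) h1z.le
    _ = (1 - z) * M * B + D := by field_simp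

theorem abel_small {a : ℕ → ℝ} (ha : Sm a) : SmT (fun z => (1 - z) * ∑' n, a n * z ^ n) := by
  intro k
  obtain ⟨B, hB⟩ := ha 0
  obtain ⟨C, hC⟩ := ha k
  simp only [pow_zero, mul_one] at hB
  have hB0 : 0 ≤ B := (abs_nonneg _).trans (hB 0)
  have hC0 : 0 ≤ C := (mul_nonneg (abs_nonneg _) (pow_pos (g_pos 0) _).le).trans (hC 0)
  refine ⟨2 * B * (2 ^ k * k.factorial) + C * 2 ^ k, fun z hz0 hz1 => ?_⟩
  set s := Real.sqrt (1 - z) with hs
  have h1z : 0 < 1 - z := by linarith
  have hs0 : 0 < s := Real.sqrt_pos.mpr h1z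
  have hs2 : s ^ 2 = 1 - z := Real.sq_sqrt h1z.le
  have hs1 : s ≤ 1 := Real.sqrt_le_one.mpr (by linarith)
  set τ := -Real.log s with hτ
  have hτ0 : 0 ≤ τ := by
    have := Real.log_nonpos hs0.le hs1
    rw [hτ]; linarith
  have hTτ : T z = 2 * τ := by
    rw [T, ← hs2, Real.log_pow, hτ]
    push_cast
    ring
  have hexp : s = Real.exp (-τ) := by rw [hτ, neg_neg, Real.exp_log hs0]
  set M := ⌈1 / s⌉₊ with hM
  have hM1 : 1 / s ≤ M := Nat.le_ceil _
  have hM2 : (M : ℝ) < 1 / s + 1 := Nat.ceil_lt_add_one (by positivity)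
  have hgM : τ ≤ g M := by
    have h1 := log_add_one_le_harmonic M
    rw [← h_eq_harmonic] at h1
    have h2 : Real.log (1 / s) ≤ Real.log ((M : ℝ) + 1) := by
      apply Real.log_le_log (by positivity)
      linarith
    rw [one_div, Real.log_inv] at h2
    have h3 : ((M + 1 : ℕ) : ℝ) = (M : ℝ) + 1 := by push_cast; ring
    rw [h3] at h1
    rw [g]
    linarith
  have hD : ∀ n, M ≤ n → |a n| ≤ C / g M ^ k := by
    intro n hn
    rw [le_div_iff₀ (pow_pos (g_pos M) k)]
    calc |a n| * g M ^ k ≤ |a n| * g n ^ k := by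
          apply mul_le_mul_of_nonneg_left _ (abs_nonneg _)
          exact pow_le_pow_left₀ (g_pos M).le (g_mono hn) k
      _ ≤ C := hC n
  have h1 := abel_bound hB hD hz0 hz1
  have h2 : (1 - z) * M ≤ 2 * s := by
    calc (1 - z) * M ≤ (1 - z) * (1 / s + 1) := mul_le_mul_of_nonneg_left hM2.le h1z.le
      _ = s + s ^ 2 := by rw [← hs2]; field_simp
      _ ≤ 2 * s := by nlinarith
  have hT0 : 0 ≤ T z := T_nonneg hz0 hz1
  have hTk : 0 ≤ T z ^ k := pow_nonneg hT0 k
  have h3 : s * τ ^ k ≤ k.factorial := by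
    have h4 := Real.pow_div_factorial_le_exp τ hτ0 k
    have h5 : (0 : ℝ) < k.factorial := by positivity
    rw [div_le_iff₀ h5] at h4
    calc s * τ ^ k ≤ Real.exp (-τ) * (Real.exp τ * k.factorial) := by
          rw [hexp]
          exact mul_le_mul_of_nonneg_left h4 (Real.exp_pos _).le
      _ = k.factorial := by
          rw [← mul_assoc, ← Real.exp_add, neg_add_cancel, Real.exp_zero, one_mul]
  have h6 : τ ^ k / g M ^ k ≤ 1 := by
    rw [div_le_one (pow_pos (g_pos M) k)]
    exact pow_le_pow_left₀ hτ0 hgM k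
  calc |(1 - z) * ∑' n, a n * z ^ n| * T z ^ k
      ≤ ((1 - z) * M * B + C / g M ^ k) * T z ^ k := mul_le_mul_of_nonneg_right h1 hTk
    _ ≤ (2 * s * B + C / g M ^ k) * T z ^ k := by
        apply mul_le_mul_of_nonneg_right _ hTk
        have := mul_le_mul_of_nonneg_right h2 hB0
        linarith
    _ = 2 * B * (2 ^ k * (s * τ ^ k)) + C * 2 ^ k * (τ ^ k / g M ^ k) := by
        rw [hTτ, mul_pow]; ring
    _ ≤ 2 * B * (2 ^ k * k.factorial) + C * 2 ^ k * 1 := by
        apply add_le_add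
        · apply mul_le_mul_of_nonneg_left _ (by positivity)
          exact mul_le_mul_of_nonneg_left h3 (by positivity)
        · exact mul_le_mul_of_nonneg_left h6 (by positivity)
    _ = _ := by ring

/-! ### Truncated sums as partial sums of the coefficients -/

theorem lam_rep (j : ℕ) (w : List (Fin 2)) (n : ℕ) :
    lam (List.replicate j 0 ++ w) n = lam w n / (n : ℝ) ^ j := by
  induction j with
  | zero => simp
  | succ j ih =>
    rw [List.replicate_succ, List.cons_append, lam_zero_cons, ih, div_div, pow_succ]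

theorem lam_yw_cons (k : ℕ+) (t : List ℕ+) (n : ℕ) :
    lam (yw (k :: t)) n = (∑ m ∈ range n, lam (yw t) m) / (n : ℝ) ^ (k : ℕ) := by
  obtain ⟨j, hj⟩ : ∃ j, (k : ℕ) = j + 1 := ⟨(k : ℕ) - 1, by have := k.pos; omega⟩
  rw [yw, lam_rep, lam_one_cons, hj, div_div, Nat.add_sub_cancel, pow_succ']

theorem sum_lam_yw (w : List ℕ+) (N : ℕ) : ∑ m ∈ range (N + 1), lam (yw w) m = Z w N := by
  induction w generalizing N with
  | nil =>
    rw [Z_nil, sum_eq_single 0]
    · simp [yw, lam_nil]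
    · intro b _ hb; simp [yw, lam_nil, hb]
    · intro h; simp at h
  | cons k t ih =>
    rw [sum_range_succ', Z_cons]
    have h0 : lam (yw (k :: t)) 0 = 0 := by rw [lam_yw_cons]; simp
    rw [h0, add_zero]
    apply sum_congr rfl
    intro n _
    rw [lam_yw_cons, ih]
    push_cast
    ring

end

end Pool.Agent.ECR
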