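import Mathlib
import Pool.Agent.ECR.Abel

/-!
# The regularised values on words ending with `x₁`
-/

set_option autoImplicit false

namespace Pool.Agent.ECR

open Finset Polynomial Pool.Agent.ECG Pool.Agent.H4DM

noncomputable section

/-- The stuffle regularised values. -/
def G (w : List ℕ+) : ℝ := (PZ w).eval 0

/-- The values at powers of `y₁`. -/
def Lam (j : ℕ) : ℝ := G (List.replicate j 1)

/-- The coordinates of `PZ w` in the basis `PZ (1^j)`. -/
def cs : List ℕ+ → ℕ → ℝ
  | [], j => if j = 0 then 1 else 0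
  | k :: w, 0 => if k = 1 then G (1 :: w) - ∑ i ∈ range (w.length + 1), Lam (i + 1) * cs w i
      else G (k :: w)
  | k :: w, j + 1 => if k = 1 then cs w j else 0

theorem cs_nil (j : ℕ) : cs [] j = if j = 0 then 1 else 0 := by rw [cs]

theorem cs_one_zero (w : List ℕ+) :
    cs (1 :: w) 0 = G (1 :: w) - ∑ i ∈ range (w.length + 1), Lam (i + 1) * cs w i := by
  rw [cs, if_pos rfl]

theorem cs_one_succ (w : List ℕ+) (j : ℕ) : cs (1 :: w) (j + 1) = cs w j := by
  rw [cs, if_pos rfl]

theorem cs_ne_zero {k : ℕ+} (hk : k ≠ 1) (w : List ℕ+) : cs (k :: w) 0 = G (k :: w) := by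
  rw [cs, if_neg hk]

theorem cs_ne_succ {k : ℕ+} (hk : k ≠ 1) (w : List ℕ+) (j : ℕ) : cs (k :: w) (j + 1) = 0 := by
  rw [cs, if_neg hk]

theorem poly_eq {P Q : ℝ[X]} (hd : derivative P = derivative Q) (h0 : P.eval 0 = Q.eval 0) :
    P = Q := by
  have h1 : derivative (P - Q) = 0 := by rw [derivative_sub, hd, sub_self]
  have h2 := derivative_eq_zero.mp h1
  have h3 := eq_C_of_natDegree_eq_zero h2
  have h4 : (P - Q).eval 0 = 0 := by rw [eval_sub, h0, sub_self]
  rw [h3, eval_C] at h4
  rw [h4, C_0] at h3
  exact sub_eq_zero.mp h3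

theorem PZ_rep_zero : PZ (List.replicate 0 1) = 1 := PZ_nil

theorem der_PZ_rep (j : ℕ) :
    derivative (PZ (List.replicate (j + 1) 1)) = PZ (List.replicate j 1) := by
  rw [List.replicate_succ]; exact PZ_cons_one _

/-- Expansion in the basis `PZ (1^j)`. -/
theorem PZ_expand (w : List ℕ+) :
    PZ w = ∑ j ∈ range (w.length + 1), C (cs w j) * PZ (List.replicate j 1) := by
  induction w with
  | nil => simp [cs_nil, PZ_nil]
  | cons k w ih =>
    by_cases hk : k = 1
    · subst hk
      apply poly_eq
      · rw [PZ_cons_one, List.length_cons, sum_range_succ', derivative_add, derivative_sum]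
        simp only [derivative_mul, derivative_C, zero_mul, zero_add, der_PZ_rep, cs_one_succ]
        rw [PZ_rep_zero, derivative_one, mul_zero, add_zero]
        exact ih
      · rw [List.length_cons, sum_range_succ', eval_add, eval_finsetSum]
        simp only [eval_mul, eval_C, cs_one_succ]
        rw [PZ_rep_zero, eval_one, mul_one, cs_one_zero]
        have h1 : ∑ i ∈ range (w.length + 1), Lam (i + 1) * cs w i =
            ∑ i ∈ range (w.length + 1), cs w i * eval 0 (PZ (List.replicate (i + 1) 1)) :=
          sum_congr rfl fun i _ => by rw [Lam, G]; ring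
        rw [h1, G]
        ring
    · obtain ⟨c, hc⟩ := PZ_cons_ne hk w
      rw [sum_range_succ', PZ_rep_zero, mul_one, cs_ne_zero hk, G, hc, eval_C]
      simp [cs_ne_succ hk]

/-- The shuffle regularised polynomial. -/
def S (w : List ℕ+) : ℝ[X] :=
  ∑ j ∈ range (w.length + 1), C (cs w j / j.factorial) * X ^ j

theorem Sm_sum {ι : Type*} (s : Finset ι) (F : ι → ℕ → ℝ) (hF : ∀ i ∈ s, Sm (F i)) :
    Sm (fun N => ∑ i ∈ s, F i N) := by
  classical
  induction s using Finset.induction_on with
  | empty => simpa using Sm.zero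
  | insert a s ha ih =>
    simp only [sum_insert ha]
    exact (hF a (mem_insert_self a s)).add (ih fun i hi => hF i (mem_insert_of_mem hi))

theorem small_diff (w : List ℕ+) :
    Sm (fun N => Z w N - ∑ j ∈ range (w.length + 1), cs w j * Z (List.replicate j 1) N) := by
  have h1 := PZ_asy w
  have h2 : Sm (fun N => ∑ j ∈ range (w.length + 1), cs w j *
      (Z (List.replicate j 1) N - (PZ (List.replicate j 1)).eval (h N))) :=
    Sm_sum _ (fun j N => cs w j *
      (Z (List.replicate j 1) N - (PZ (List.replicate j 1)).eval (h N)))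
      fun j _ => Sm.const_mul (PZ_asy _) _
  refine (Sm.sub h1 h2).congr fun N => ?_
  have h3 : (PZ w).eval (h N) = ∑ j ∈ range (w.length + 1),
      cs w j * (PZ (List.replicate j 1)).eval (h N) := by
    conv_lhs => rw [PZ_expand w]
    rw [eval_finsetSum]
    simp only [eval_mul, eval_C]
  rw [h3]
  simp only [mul_sub]
  rw [sum_sub_distrib]
  ring

theorem yw_ones (j : ℕ) : yw (List.replicate j 1) = List.replicate j 1 := by
  induction j with
  | zero => rfl
  | succ j ih =>
    rw [List.replicate_succ, yw, ih]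
    rfl

/-- The shuffle regularisation of multiple polylogarithms. -/
theorem Li_asy (w : List ℕ+) : AsyT (Li (yw w)) (S w) := by
  have h1 := abel_small (small_diff w)
  refine h1.congr fun z hz0 hz1 => ?_
  obtain ⟨B, hB⟩ := small_diff w 0
  simp only [pow_zero, mul_one] at hB
  have h2 := abel_sum (a := fun N => Z w N - ∑ j ∈ range (w.length + 1),
      cs w j * Z (List.replicate j 1) N)
    (f := fun n => lam (yw w) n - ∑ j ∈ range (w.length + 1),
      cs w j * lam (yw (List.replicate j 1)) n) hB (fun n => by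
      rw [sum_sub_distrib, sum_lam_yw, sum_comm]
      congr 1
      apply sum_congr rfl
      intro j _
      rw [← mul_sum, sum_lam_yw]) hz0 hz1
  rw [← h2]
  have s1 : ∀ v : List (Fin 2), Summable (fun n => lam v n * z ^ n) := fun v =>
    (summable_of_bdd (lam_abs v) hz0 hz1).of_norm
  have h3 : ∑' n, (lam (yw w) n - ∑ j ∈ range (w.length + 1),
      cs w j * lam (yw (List.replicate j 1)) n) * z ^ n =
      Li (yw w) z - ∑ j ∈ range (w.length + 1), cs w j * Li (yw (List.replicate j 1)) z := by
    have s2 : ∀ j : ℕ, Summable (fun n => cs w j * (lam (yw (List.replicate j 1)) n * z ^ n)) :=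
      fun j => (s1 _).mul_left _
    have h4 : ∀ n, (lam (yw w) n - ∑ j ∈ range (w.length + 1),
        cs w j * lam (yw (List.replicate j 1)) n) * z ^ n = lam (yw w) n * z ^ n -
        ∑ j ∈ range (w.length + 1), cs w j * (lam (yw (List.replicate j 1)) n * z ^ n) := by
      intro n
      rw [sub_mul, sum_mul]
      congr 1
      apply sum_congr rfl
      intro j _
      ring
    simp only [h4]
    rw [Summable.tsum_sub (s1 _) (summable_sum fun j _ => s2 j),
      Summable.tsum_finsetSum (fun j _ => s2 j)]
    congr 1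
    apply sum_congr rfl
    intro j _
    rw [tsum_mul_left]
    rfl
  rw [h3]
  congr 1
  rw [S, eval_finsetSum]
  apply sum_congr rfl
  intro j _
  rw [yw_ones, Li_ones j hz0 hz1, eval_mul, eval_C, eval_pow, eval_X]
  ring

/-! ### Decoding words -/

/-- Increase the first letter. -/
def inc : List ℕ+ → List ℕ+
  | [] => []
  | k :: t => (k + 1) :: t

/-- The composition attached to a word ending with `1`. -/
def dec : List (Fin 2) → List ℕ+
  | [] => []
  | a :: w => if a = 0 then inc (dec w) else 1 :: dec w

theorem dec_zero (w : List (Fin 2)) : dec (0 :: w) = inc (dec w) := by rw [dec, if_pos rfl]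
theorem dec_one (w : List (Fin 2)) : dec (1 :: w) = 1 :: dec w := by
  rw [dec, if_neg (by decide)]

theorem dec_rep (j : ℕ) (t : List ℕ+) (h : dec (yw t) = t) :
    dec (List.replicate j 0 ++ 1 :: yw t) = j.succPNat :: t := by
  induction j with
  | zero =>
    rw [List.replicate_zero, List.nil_append, dec_one, h]
    rfl
  | succ j ih =>
    rw [List.replicate_succ, List.cons_append, dec_zero, ih, inc]
    congr 1

theorem dec_yw (t : List ℕ+) : dec (yw t) = t := by
  induction t with
  | nil => rfl
  | cons k t ih =>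
    rw [yw, dec_rep _ _ ih]
    congr 1
    apply PNat.coe_injective
    rw [Nat.succPNat_coe]
    have := k.pos
    omega

theorem E1_yw (t : List ℕ+) : E1 (yw t) := by
  induction t with
  | nil => exact E1_nil
  | cons k t ih =>
    rw [yw]
    rcases ih with h | ⟨v, h⟩
    · rw [h]; exact Or.inr ⟨List.replicate ((k : ℕ) - 1) 0, rfl⟩
    · rw [h]
      exact Or.inr ⟨List.replicate ((k : ℕ) - 1) 0 ++ 1 :: v, by simp⟩

theorem yw_inc {t : List ℕ+} (ht : t ≠ []) : yw (inc t) = 0 :: yw t := by
  obtain ⟨k, t, rfl⟩ := List.exists_cons_of_ne_nil ht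
  rw [inc, yw, yw, PNat.add_coe, PNat.one_coe, Nat.add_sub_cancel]
  obtain ⟨j, hj⟩ : ∃ j, (k : ℕ) = j + 1 := ⟨(k : ℕ) - 1, by have := k.pos; omega⟩
  rw [hj, Nat.add_sub_cancel, List.replicate_succ]
  rfl

theorem yw_dec {w : List (Fin 2)} (hw : E1 w) : yw (dec w) = w := by
  induction w with
  | nil => rfl
  | cons a w ih =>
    have h1 := ih (E1_tail hw)
    fin_cases a
    · simp only [Fin.mk_zero, Fin.isValue] at hw ⊢
      have h2 := E1_zero_ne hw
      rw [dec_zero, yw_inc, h1]
      intro h3
      apply h2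
      rw [← h1, h3]
      rfl
    · simp only [Fin.mk_one, Fin.isValue]
      rw [dec_one, yw, h1]
      rfl

/-- The shuffle product of the polynomials `S`. -/
theorem S_shuffle (u v : List (Fin 2)) (hu : E1 u) (hv : E1 v) :
    shE (fun w => S (dec w)) u v = S (dec u) * S (dec v) := by
  have h1 : ∀ (u v : List (Fin 2)) (F : List (Fin 2) → ℝ → ℝ) (P : List (Fin 2) → ℝ[X]),
      E1 u → E1 v → (∀ w, E1 w → w.length = u.length + v.length → AsyT (F w) (P w)) →
      AsyT (fun z => shE (fun w => F w z) u v) (shE P u v) := by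
    intro u v
    induction u, v using two_induction with
    | h1 v => intro F P _ hv h; simp only [shE_nil_left]; exact h v hv (by simp)
    | h2 u => intro F P hu _ h; simp only [shE_nil_right]; exact h u hu (by simp)
    | h3 a b u v i1 i2 _ =>
      intro F P hu hv h
      simp only [shE_cons_cons]
      have key : ∀ (c : Fin 2) (w : List (Fin 2)) (m : ℕ), 1 ≤ m → E1 w → w.length = m →
          E1 (c :: w) := by
        intro c w m hm hw hl
        apply E1_cons_ne hw
        rintro rfl
        simp only [List.length_nil] at hl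
        omega
      refine (i1 (fun w => F (a :: w)) (fun w => P (a :: w)) (E1_tail hu) hv ?_).add
        (i2 (fun w => F (b :: w)) (fun w => P (b :: w)) hu (E1_tail hv) ?_)
      · intro w hw hl
        simp only [List.length_cons] at hl
        exact h _ (key a w _ (by omega) hw hl) (by simp only [List.length_cons]; omega)
      · intro w hw hl
        simp only [List.length_cons] at hl
        exact h _ (key b w _ (by omega) hw hl) (by simp only [List.length_cons]; omega)
  have h2 : ∀ w, E1 w → AsyT (Li w) (S (dec w)) := by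
    intro w hw
    have := Li_asy (dec w)
    rwa [yw_dec hw] at this
  have h3 := h1 u v Li (fun w => S (dec w)) hu hv (fun w hw _ => h2 w hw)
  have h4 := (h2 u hu).mul (h2 v hv)
  refine h3.unique (h4.congr fun z hz0 hz1 => ?_)
  exact Li_shuffle u v hu hv hz0 hz1

/-- The shuffle regularised values on words ending with `1`. -/
def F (w : List (Fin 2)) : ℝ := cs (dec w) 0

theorem S_eval (w : List ℕ+) : (S w).eval 0 = cs w 0 := by
  rw [S, sum_range_succ', eval_add, eval_finsetSum]
  simp

theorem F_shuffle (u v : List (Fin 2)) (hu : E1 u) (hv : E1 v) :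
    shE F u v = F u * F v := by
  have h1 := congrArg (fun P : ℝ[X] => P.eval 0) (S_shuffle u v hu hv)
  simp only [eval_mul, S_eval] at h1
  have h2 := sh_map (Polynomial.evalRingHom (0 : ℝ)).toAddMonoidHom u v (fun w => S (dec w))
  have h3 : (fun w => (Polynomial.evalRingHom (0 : ℝ)).toAddMonoidHom (S (dec w))) = F := by
    funext w
    exact S_eval (dec w)
  rw [h3] at h2
  rw [h2]
  exact h1

theorem G_stuffle (u v : List ℕ+) : stE G u v = G u * G v := by
  have h1 := congrArg (fun P : ℝ[X] => P.eval 0) (PZ_stuffle u v)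
  simp only [eval_mul] at h1
  have h2 := st_map (Polynomial.evalRingHom (0 : ℝ)).toAddMonoidHom u v PZ
  have h3 : (fun w => (Polynomial.evalRingHom (0 : ℝ)).toAddMonoidHom (PZ w)) = G := by
    funext w
    rfl
  rw [h3] at h2
  rw [h2]
  exact h1

theorem G_nil : G [] = 1 := by rw [G, PZ_nil, eval_one]

theorem Lam_zero : Lam 0 = 1 := G_nil

theorem Lam_one : Lam 1 = 0 := by
  rw [Lam, G, List.replicate_one, PZ_one_letter, eval_X]

theorem G_expand (w : List ℕ+) : G w = ∑ j ∈ range (w.length + 1), Lam j * cs w j := by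
  rw [G, PZ_expand w, eval_finsetSum]
  apply sum_congr rfl
  intro j _
  rw [eval_mul, eval_C, Lam, G]
  ring

/-- Depth one values. -/
theorem G_letter {k : ℕ+} (hk : k ≠ 1) : 1 ≤ G [k] := by
  obtain ⟨c, hc⟩ := PZ_cons_ne hk []
  have h1 := PZ_asy [k]
  rw [hc] at h1
  have h2 := Sm.tendsto h1
  simp only [eval_C] at h2
  have h3 : Filter.Tendsto (fun N => Z [k] N) Filter.atTop (nhds c) := by
    have := h2.add_const c
    simpa using this
  have h4 : G [k] = c := by rw [G, hc, eval_C]
  rw [h4]
  apply ge_of_tendsto h3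
  filter_upwards [Filter.eventually_ge_atTop 1] with N hN
  rw [Z_cons]
  calc (1 : ℝ) = ∑ n ∈ range 1, (1 / ((n : ℝ) + 1) ^ (k : ℕ)) * Z [] n := by simp [Z_nil]
    _ ≤ ∑ n ∈ range N, (1 / ((n : ℝ) + 1) ^ (k : ℕ)) * Z [] n := by
      apply sum_le_sum_of_subset_of_nonneg
      · intro x hx
        rw [mem_range] at hx ⊢
        omega
      · intro n _ _
        rw [Z_nil, mul_one]
        positivity

end

end Pool.Agent.ECR
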