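import Mathlib
import Pool.Agent.ECR.Half

/-!
# A real point of the double shuffle scheme
-/

set_option autoImplicit false

namespace Pool.Agent.ECR

open Finset Pool.Agent.ECG Pool.Agent.H4DM

section assoc

variable {α : Type} {R : Type*} [CommRing R]

theorem shE_comm (u v : List α) : ∀ c : List α → R, shE c u v = shE c v u := by
  induction u, v using two_induction with
  | h1 v => intro c; rw [shE_nil_left, shE_nil_right]
  | h2 u => intro c; rw [shE_nil_left, shE_nil_right]
  | h3 a b u v i1 i2 _ =>
    intro c
    rw [shE_cons_cons c a b, shE_cons_cons c b a, add_comm, i1, i2]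

theorem shE_assoc_aux (n : ℕ) : ∀ (x y z : List α), x.length + y.length + z.length ≤ n →
    ∀ c : List α → R, shE (fun w => shE c w z) x y = shE (fun w => shE c x w) y z := by
  induction n with
  | zero =>
    intro x y z h c
    have hx : x = [] := List.length_eq_zero_iff.mp (by omega)
    subst hx
    simp only [shE_nil_left]
  | succ n ih =>
    intro x y z h c
    cases x with
    | nil => simp only [shE_nil_left]
    | cons a x =>
      cases y with
      | nil => simp only [shE_nil_left, shE_nil_right]
      | cons b y =>
        cases z with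
        | nil => simp only [shE_nil_right]
        | cons k z =>
          simp only [List.length_cons] at h
          have l1 : shE (fun w => shE c w (k :: z)) (a :: x) (b :: y) =
              shE (fun w => shE (fun t => c (a :: t)) w (k :: z)) x (b :: y) +
              shE (fun w => shE (fun t => c (b :: t)) w (k :: z)) (a :: x) y +
              shE (fun w => shE (fun t => c (k :: t)) w z) (a :: x) (b :: y) := by
            rw [shE_cons_cons, shE_cons_cons (fun w => shE (fun t => c (k :: t)) w z)]
            simp only [shE_cons_cons c]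
            rw [sh_add, sh_add]
            ring
          have l2 : shE (fun w => shE c (a :: x) w) (b :: y) (k :: z) =
              shE (fun w => shE (fun t => c (a :: t)) x w) (b :: y) (k :: z) +
              shE (fun w => shE (fun t => c (b :: t)) (a :: x) w) y (k :: z) +
              shE (fun w => shE (fun t => c (k :: t)) (a :: x) w) (b :: y) z := by
            rw [shE_cons_cons, shE_cons_cons (fun w => shE (fun t => c (a :: t)) x w)]
            simp only [shE_cons_cons c]
            rw [sh_add, sh_add]
            ring
          rw [l1, l2, ih x (b :: y) (k :: z) (by simp only [List.length_cons]; omega),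
            ih (a :: x) y (k :: z) (by simp only [List.length_cons]; omega),
            ih (a :: x) (b :: y) z (by simp only [List.length_cons]; omega)]

theorem shE_assoc (x y z : List α) (c : List α → R) :
    shE (fun w => shE c w z) x y = shE (fun w => shE c x w) y z :=
  shE_assoc_aux _ x y z le_rfl c

theorem shE_swap (x y z : List α) (c : List α → R) :
    shE (fun w => shE c w z) x y = shE (fun w => shE c w y) x z := by
  rw [shE_assoc, shE_comm, ← shE_assoc]

theorem shE_zero (x y : List α) : shE (fun _ => (0 : R)) x y = 0 := by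
  have := sh_smul x y (0 : R) (fun _ => 0)
  simpa using this

theorem sh_app {a b : α} (i : ℕ) (v : List α) : ∀ c : List α → R,
    shE c (v ++ b :: List.replicate i a) [a] =
      shE (fun w => c (w ++ b :: List.replicate i a)) v [a] +
        (i + 1) * c (v ++ b :: List.replicate (i + 1) a) := by
  induction v with
  | nil =>
    intro c
    rw [List.nil_append, shE_cons_cons, shE_nil_right, shE_nil_left, shE_comm, List.nil_append]
    have h1 : ∀ d : List α → R, shE d [a] (List.replicate i a) =
        (i + 1) * d (List.replicate (i + 1) a) := by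
      clear c
      induction i with
      | zero => intro d; simp
      | succ j ih =>
        intro d
        rw [List.replicate_succ, shE_cons_cons, shE_nil_left, ih (fun w => d (a :: w))]
        push_cast
        rw [← List.replicate_succ, ← List.replicate_succ]
        ring
    rw [h1 (fun w => c (b :: w))]
    rw [List.cons_append, List.nil_append]
    ring
  | cons k v ih =>
    intro c
    rw [List.cons_append, shE_cons_cons, shE_nil_right, ih (fun w => c (k :: w)),
      shE_cons_cons (fun w => c (w ++ b :: List.replicate i a)), shE_nil_right]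
    simp only [List.cons_append]
    ring

end assoc

/-- Two kinds of words. -/
theorem word_cases (w : List (Fin 2)) :
    (∃ i, w = List.replicate i 0) ∨ ∃ v i, w = v ++ 1 :: List.replicate i 0 := by
  induction w with
  | nil => exact Or.inl ⟨0, rfl⟩
  | cons a w ih =>
    rcases ih with ⟨i, rfl⟩ | ⟨v, i, rfl⟩
    · fin_cases a
      · exact Or.inl ⟨i + 1, rfl⟩
      · exact Or.inr ⟨[], i, rfl⟩
    · exact Or.inr ⟨a :: v, i, rfl⟩

/-- A functional vanishing on `E1` and on all `w sh x₀` is zero. -/
theorem vanish_of_E1 {R : Type*} [Field R] [CharZero R] {K : List (Fin 2) → R}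
    (h0 : ∀ w, E1 w → K w = 0)
    (h1 : ∀ x, shE K x [0] = 0) (w : List (Fin 2)) : K w = 0 := by
  have hne : ∀ i : ℕ, ((i : R) + 1) ≠ 0 := fun i => Nat.cast_add_one_ne_zero i
  have k1 : ∀ i v, K (v ++ 1 :: List.replicate i 0) = 0 := by
    intro i
    induction i with
    | zero => intro v; exact h0 _ (Or.inr ⟨v, rfl⟩)
    | succ i ih =>
      intro v
      have h2 := h1 (v ++ 1 :: List.replicate i 0)
      rw [sh_app i v K] at h2
      simp only [ih] at h2
      rw [shE_zero, zero_add] at h2
      exact (mul_eq_zero.mp h2).resolve_left (hne i)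
  have k2 : ∀ i, K (List.replicate i 0) = 0 := by
    intro i
    cases i with
    | zero => exact h0 _ E1_nil
    | succ i =>
      have h2 := h1 (List.replicate i 0)
      rw [shE_comm, sh_rep] at h2
      exact (mul_eq_zero.mp h2).resolve_left (hne i)
  rcases word_cases w with ⟨i, rfl⟩ | ⟨v, i, rfl⟩
  · exact k2 i
  · exact k1 i v

noncomputable section

/-- Regularisation with respect to trailing letters `0`. -/
def ee : ℕ → List (Fin 2) → ℝ
  | 0, v => F (v ++ [1])
  | i + 1, v => -(1 / ((i : ℝ) + 1)) * shE (ee i) v [0]

/-- The real point. -/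
def Phi (w : List (Fin 2)) : ℝ :=
  match w.reverse.dropWhile (fun a => a = 0) with
  | [] => if w = [] then 1 else 0
  | _ :: v => ee (w.reverse.takeWhile (fun a => a = 0)).length v.reverse

theorem drop_rep (i : ℕ) (l : List (Fin 2)) :
    (List.replicate i 0 ++ 1 :: l).dropWhile (fun a => a = 0) = 1 :: l := by
  induction i with
  | zero => simp
  | succ i ih =>
    rw [List.replicate_succ, List.cons_append, List.dropWhile_cons]
    simp only [decide_true, if_true]
    exact ih

theorem take_rep (i : ℕ) (l : List (Fin 2)) :
    (List.replicate i 0 ++ 1 :: l).takeWhile (fun a => a = 0) = List.replicate i 0 := by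
  induction i with
  | zero => simp
  | succ i ih =>
    rw [List.replicate_succ, List.cons_append, List.takeWhile_cons]
    simp only [decide_true, if_true]
    rw [ih]

theorem Phi_app (v : List (Fin 2)) (i : ℕ) : Phi (v ++ 1 :: List.replicate i 0) = ee i v := by
  have h1 : (v ++ 1 :: List.replicate i 0).reverse = List.replicate i 0 ++ 1 :: v.reverse := by
    simp
  rw [Phi, h1, drop_rep, take_rep]
  simp

theorem Phi_rep (i : ℕ) : Phi (List.replicate i 0) = if i = 0 then 1 else 0 := by
  have h1 : (List.replicate i (0 : Fin 2)).reverse.dropWhile (fun a => a = 0) = [] := by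
    simp
  rw [Phi, h1]
  cases i with
  | zero => simp
  | succ i => simp

theorem Phi_nil : Phi [] = 1 := by
  have := Phi_rep 0
  simpa using this

theorem F_nil : F [] = 1 := by
  rw [F, dec, cs_nil, if_pos rfl]

theorem Phi_E1 {w : List (Fin 2)} (hw : E1 w) : Phi w = F w := by
  rcases hw with rfl | ⟨v, rfl⟩
  · rw [Phi_nil, F_nil]
  · have := Phi_app v 0
    rw [List.replicate_zero] at this
    rw [this, ee]

theorem Phi_sh_zero (w : List (Fin 2)) : shE Phi w [0] = 0 := by
  rcases word_cases w with ⟨i, rfl⟩ | ⟨v, i, rfl⟩
  · rw [shE_comm, sh_rep, Phi_rep, if_neg (by omega), mul_zero]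
  · rw [sh_app i v Phi, Phi_app, ee]
    simp only [Phi_app]
    have h1 : ((i : ℝ) + 1) ≠ 0 := by positivity
    have h2 : (fun w => ee i w) = ee i := rfl
    rw [h2]
    field_simp
    ring

theorem Phi_shuffle (u v : List (Fin 2)) : shE Phi u v = Phi u * Phi v := by
  have step : ∀ v, (∀ u, E1 u → shE Phi u v = Phi u * Phi v) →
      ∀ u, shE Phi u v = Phi u * Phi v := by
    intro v hv u
    have h1 := vanish_of_E1 (K := fun u => shE Phi u v - Phi u * Phi v)
      (fun w hw => by simp only [hv w hw, sub_self]) (fun x => by
        have h2 : (fun u => shE Phi u v - Phi u * Phi v) =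
            fun u => shE Phi u v + (-Phi v) * Phi u := by
          funext u; ring
        rw [h2, sh_add, sh_smul, Phi_sh_zero, mul_zero, add_zero, shE_swap]
        have h3 : (fun w => shE Phi w [0]) = fun _ => (0 : ℝ) := funext Phi_sh_zero
        rw [h3, shE_zero]) u
    exact sub_eq_zero.mp h1
  have h1 : ∀ v, E1 v → ∀ u, shE Phi u v = Phi u * Phi v := by
    intro v hv
    apply step
    intro u hu
    rw [sh_congr_E1 u v Phi F hu hv (fun w hw _ => Phi_E1 hw), F_shuffle u v hu hv, Phi_E1 hu,
      Phi_E1 hv]
  apply step
  intro u hu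
  rw [shE_comm, h1 u hu v, mul_comm]

theorem Phi_yw (w : List ℕ+) : Phi (yw w) = cs w 0 := by
  rw [Phi_E1 (E1_yw w), F, dec_yw]

theorem stv_eq (w : List ℕ+) : ∀ Λ : ℕ → ℝ,
    stv Phi Λ w = ∑ j ∈ range (w.length + 1), Λ j * cs w j := by
  induction w with
  | nil => intro Λ; simp [stv, Phi_nil, cs_nil]
  | cons k w ih =>
    intro Λ
    rw [stv, Phi_yw, List.length_cons, sum_range_succ']
    by_cases hk : k = 1
    · subst hk
      rw [if_pos rfl, ih]
      simp only [cs_one_succ]
      ring
    · rw [if_neg hk]
      simp [cs_ne_succ hk]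

theorem stv_G : stv Phi Lam = G := by
  funext w
  rw [stv_eq, G_expand]

theorem yw_single (n : ℕ) : yw [n.succPNat] = List.replicate n 0 ++ [1] := by
  rw [yw, yw, Nat.succPNat_coe, Nat.succ_sub_one]

/-- Existence of a real point of the double shuffle scheme with non-zero depth one
coefficients. -/
theorem real_point : ∃ (Φ : List (Fin 2) → ℝ) (Λ : ℕ → ℝ), DPoint Φ Λ ∧
    ∀ n : ℕ, 1 ≤ n → Φ (List.replicate n 0 ++ [1]) ≠ 0 := by
  refine ⟨Phi, Lam, ⟨Phi_nil, ?_, ?_, Phi_shuffle, Lam_zero, Lam_one, ?_⟩, ?_⟩
  · have := Phi_rep 1
    simpa using this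
  · have h1 := Phi_yw [1]
    have h2 : yw [1] = [1] := rfl
    rw [h2] at h1
    rw [h1, cs_one_zero]
    have h3 : G [1] = 0 := Lam_one
    rw [h3]
    have h4 : Lam (0 + 1) = 0 := Lam_one
    simp [h4]
  · intro U V
    rw [stv_G, G_stuffle]
  · intro n hn
    rw [← yw_single, Phi_yw]
    have hk : n.succPNat ≠ 1 := by
      intro h
      have := congrArg PNat.val h
      simp only [Nat.succPNat_coe, PNat.val_ofNat] at this
      omega
    rw [cs_ne_zero hk]
    have := G_letter hk
    linarith

end

end Pool.Agent.ECR
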